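import Pool.Agent.H18.HG.Rams

/-!
# Almost primes: tools for the applications (helper18)
-/

set_option autoImplicit false
set_option linter.unusedSectionVars false
set_option linter.deprecated false

namespace Pool.Agent.H18.HG

open Finset

/-- a positive integer `m ≤ N ^ B` without prime factors up to `N ^ κ` has few prime factors -/
lemma few_factors (κ : ℝ) (hκ : 0 < κ) (N B m : ℕ) (hN : 2 ≤ N) (hm : m ≠ 0) (hmN : m ≤ N ^ B)
    (h : ∀ p : ℕ, p.Prime → p ∣ m → (N : ℝ) ^ κ < p) :
    (ArithmeticFunction.cardFactors m : ℝ) ≤ B / κ := by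
  have hN0 : (0 : ℝ) < N := by exact_mod_cast (by omega : 0 < N)
  have hN1 : (1 : ℝ) < N := by exact_mod_cast (by omega : 1 < N)
  have hL : 0 < Real.log N := Real.log_pos hN1
  have h1 : ((N : ℝ) ^ κ) ^ (m.primeFactorsList.length) ≤ (m : ℝ) := by
    have h2 : ((N : ℝ) ^ κ) ^ (m.primeFactorsList.length) ≤
        ((m.primeFactorsList.map (fun p : ℕ => (p : ℝ))).prod) := by
      have : ∀ l : List ℕ, (∀ p ∈ l, (N : ℝ) ^ κ ≤ p) →
          ((N : ℝ) ^ κ) ^ l.length ≤ (l.map (fun p : ℕ => (p : ℝ))).prod := by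
        intro l
        induction l with
        | nil => intro _; simp
        | cons a l ih =>
          intro hl
          rw [List.length_cons, pow_succ, List.map_cons, List.prod_cons, mul_comm]
          apply mul_le_mul (hl a (by simp)) (ih fun p hp => hl p (by simp [hp])) (by positivity)
            (by positivity)
      apply this
      intro p hp
      exact (h p (Nat.prime_of_mem_primeFactorsList hp) (Nat.dvd_of_mem_primeFactorsList hp)).le
    refine h2.trans ?_
    have h3 : (m.primeFactorsList.map (fun p : ℕ => (p : ℝ))).prod = ((m.primeFactorsList.prod : ℕ) : ℝ) := by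
      rw [Nat.cast_list_prod]
    rw [h3, Nat.prod_primeFactorsList hm]
  rw [ArithmeticFunction.cardFactors_apply, le_div_iff₀ hκ]
  have h4 : (m : ℝ) ≤ (N : ℝ) ^ B := by exact_mod_cast hmN
  have h5 := Real.log_le_log (by positivity) (h1.trans h4)
  rw [Real.log_pow, Real.log_pow, Real.log_rpow hN0] at h5
  have h6 : ((m.primeFactorsList.length : ℝ) * κ) * Real.log N ≤ B * Real.log N := by linarith
  exact le_of_mul_le_mul_right h6 hL

/-- positive integers without small prime factors are almost primes -/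
lemma almost_of (κ : ℝ) (hκ : 0 < κ) (M B : ℕ) (hM : 2 ≤ M) (y : ℝ) (hy : y ≤ (M : ℝ) ^ κ) (n : ℤ) (h0 : 0 < n)
    (hn : n ≤ ((M ^ B : ℕ) : ℤ)) (h : ∀ p : ℕ, p.Prime → (p : ℝ) ≤ (M : ℝ) ^ κ → ¬ (p : ℤ) ∣ n) :
    (∀ p : ℕ, p.Prime → (p : ℤ) ∣ n → y < p) ∧ ArithmeticFunction.cardFactors n.natAbs ≤ ⌈(B : ℝ) / κ⌉₊ := by
  have h1 : ∀ p : ℕ, p.Prime → (p : ℤ) ∣ n → (M : ℝ) ^ κ < p := by
    intro p hp hd
    by_contra hcon
    exact h p hp (not_lt.1 hcon) hd
  refine ⟨fun p hp hd => lt_of_le_of_lt hy (h1 p hp hd), ?_⟩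
  have h5 : n.natAbs ≤ M ^ B := by
    have : (n.natAbs : ℤ) ≤ ((M ^ B : ℕ) : ℤ) := by
      rw [Int.natAbs_of_nonneg h0.le]
      exact hn
    exact_mod_cast this
  have h6 := few_factors κ hκ M B n.natAbs hM (by omega) h5 (fun p hp hd => h1 p hp (Int.natCast_dvd.2 hd))
  exact Nat.cast_le.1 (h6.trans (Nat.le_ceil _))

/-- a bound for powers -/
lemma pow_bound (θ : ℝ) (hθ : 0 < θ) (L : ℕ) : ∃ B : ℕ, ∀ N M : ℕ, 1 ≤ M → (N : ℝ) ^ θ ≤ M → N ^ L ≤ M ^ B := by
  obtain ⟨B, hB⟩ : ∃ B : ℕ, L / θ ≤ B := exists_nat_ge _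
  refine ⟨B, ?_⟩
  intro N M hM1 hM
  have h1 : (N : ℝ) ^ (L : ℝ) ≤ (M : ℝ) ^ B := by
    calc (N : ℝ) ^ (L : ℝ) = ((N : ℝ) ^ θ) ^ (L / θ) := by
          rw [← Real.rpow_mul (by positivity)]
          congr 1
          field_simp
      _ ≤ (M : ℝ) ^ (L / θ) := Real.rpow_le_rpow (by positivity) hM (by positivity)
      _ ≤ (M : ℝ) ^ (B : ℝ) := Real.rpow_le_rpow_of_exponent_le (by exact_mod_cast hM1) hB
      _ = (M : ℝ) ^ B := Real.rpow_natCast _ _
  rw [Real.rpow_natCast] at h1
  exact_mod_cast h1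

open Classical in
lemma one_class (p : ℕ) (c : ℤ) : ((range p).filter (fun r : ℕ => (p : ℤ) ∣ (r : ℤ) + c)).card ≤ 1 := by
  rw [card_le_one]
  intro x hx y hy
  rw [mem_filter, mem_range] at hx hy
  have h3 : (p : ℤ) ∣ (x : ℤ) - y := by
    have := dvd_sub hx.2 hy.2
    have e : (x : ℤ) + c - (y + c) = (x : ℤ) - y := by ring
    rwa [e] at this
  have h4 := Int.eq_zero_of_abs_lt_dvd h3 (by
    rw [abs_lt]
    constructor <;> omega)
  omega

open Classical in
lemma exists_of_card (τ : ℕ → ℤ → Prop) (p : ℕ) (h : ((range p).filter (fun r : ℕ => τ p r)).card < p) :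
    ∃ n : ℤ, ¬ τ p n := by
  by_contra hcon
  push Not at hcon
  have h1 : (range p).filter (fun r : ℕ => τ p r) = range p := filter_true_of_mem (fun x _ => hcon x)
  rw [h1, card_range] at h
  exact lt_irrefl _ h

/-- the condition for the pair `a + n`, `b - n` -/
def SP (a b : ℤ) (p : ℕ) (n : ℤ) : Prop := (p : ℤ) ∣ a + n ∨ (p : ℤ) ∣ b - n

lemma sieve_SP (a b : ℤ) (hab : (2 : ℤ) ∣ a + b) : Sieve1 2 (SP a b) := by
  classical
  have hper : Per1 (SP a b) := by
    intro p n m h
    unfold SP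
    have e1 : (p : ℤ) ∣ a + n ↔ (p : ℤ) ∣ a + m := by
      have e : a + n = (a + m) + (n - m) := by ring
      rw [e]
      exact dvd_add_left h
    have e2 : (p : ℤ) ∣ b - n ↔ (p : ℤ) ∣ b - m := by
      have e : b - n = (b - m) - (n - m) := by ring
      rw [e]
      exact dvd_sub_left h
    rw [e1, e2]
  have hle : ∀ p : ℕ, p.Prime → ((range p).filter (fun r : ℕ => SP a b p r)).card ≤ 2 := by
    intro p _
    have h1 : (range p).filter (fun r : ℕ => SP a b p r) ⊆
        (range p).filter (fun r : ℕ => (p : ℤ) ∣ (r : ℤ) + a) ∪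
          (range p).filter (fun r : ℕ => (p : ℤ) ∣ (r : ℤ) + (-b)) := by
      intro r hr
      obtain ⟨h2, h3⟩ := mem_filter.1 hr
      rw [mem_union, mem_filter, mem_filter]
      rcases h3 with h3 | h3
      · left
        refine ⟨h2, ?_⟩
        rwa [add_comm] at h3
      · right
        refine ⟨h2, ?_⟩
        have := dvd_neg.2 h3
        have e : -(b - (r : ℤ)) = (r : ℤ) + -b := by ring
        rwa [e] at this
    refine (card_le_card h1).trans ((card_union_le _ _).trans ?_)
    have q1 := one_class p a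
    have q2 := one_class p (-b)
    omega
  refine ⟨hper, hle, ?_⟩
  intro p hp
  by_cases hp2 : p = 2
  · subst hp2
    refine ⟨a + 1, ?_⟩
    rintro (h | h)
    · have e : a + (a + 1) = 2 * a + 1 := by ring
      rw [e] at h
      push_cast at h
      omega
    · have e : b - (a + 1) = (a + b) - 2 * a - 1 := by ring
      rw [e] at h
      push_cast at h
      omega
  · apply exists_of_card
    have := hle p hp
    have := hp.two_le
    omega

/-- the condition for `q n + r` -/
def SQ (q r : ℤ) (p : ℕ) (n : ℤ) : Prop := (p : ℤ) ∣ q * n + r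

lemma sieve_SQ (q r : ℤ) (hqr : IsCoprime q r) : Sieve1 1 (SQ q r) := by
  classical
  have hper : Per1 (SQ q r) := by
    intro p n m h
    unfold SQ
    have e : q * n + r = (q * m + r) + q * (n - m) := by ring
    rw [e]
    exact dvd_add_left (h.mul_left _)
  have hle : ∀ p : ℕ, p.Prime → ((range p).filter (fun c : ℕ => SQ q r p c)).card ≤ 1 := by
    intro p hp
    rw [card_le_one]
    intro x hx y hy
    rw [mem_filter, mem_range] at hx hy
    have h3 : (p : ℤ) ∣ q * ((x : ℤ) - y) := by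
      have := dvd_sub hx.2 hy.2
      have e : q * (x : ℤ) + r - (q * y + r) = q * ((x : ℤ) - y) := by ring
      rwa [e] at this
    rcases Int.Prime.dvd_mul' hp h3 with h4 | h4
    · exfalso
      have h5 : (p : ℤ) ∣ r := by
        have := hx.2
        unfold SQ at this
        exact (dvd_add_right (h4.mul_right _)).1 this
      have h6 := hqr.isUnit_of_dvd' h4 h5
      rw [Int.isUnit_iff] at h6
      have := hp.two_le
      rcases h6 with h6 | h6 <;> omega
    · have h4 := Int.eq_zero_of_abs_lt_dvd h4 (by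
        rw [abs_lt]
        constructor <;> omega)
      omega
  refine ⟨hper, hle, ?_⟩
  intro p hp
  apply exists_of_card
  have := hle p hp
  have := hp.two_le
  omega

/-- the value of a form at a point of the box -/
lemma abs_lin_le {s : ℕ} (c : Fin s → ℤ) (A M : ℕ) (hc : ∀ i, |c i| ≤ A) (x : Fin s → ℤ)
    (hx : ∀ i, 1 ≤ x i ∧ x i ≤ M) : |lin c x| ≤ A * s * M := by
  unfold lin
  refine (abs_sum_le_sum_abs _ _).trans ?_
  calc ∑ i, |c i * x i| ≤ ∑ _i : Fin s, ((A : ℤ) * M) := by
        apply sum_le_sum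
        intro i _
        rw [abs_mul, abs_of_nonneg (by linarith [(hx i).1] : 0 ≤ x i)]
        exact mul_le_mul (hc i) (hx i).2 (by linarith [(hx i).1]) (by positivity)
    _ = A * s * M := by
        rw [sum_const, card_univ, Fintype.card_fin, nsmul_eq_mul]
        push_cast
        ring

end Pool.Agent.H18.HG
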