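import Pool.Agent.H18.HG.App

/-!
# Pairs of almost primes with a given sum, and almost primes in progressions (helper18)
-/

set_option autoImplicit false
set_option linter.unusedSectionVars false
set_option linter.deprecated false

namespace Pool.Agent.H18.HG

open Finset

/-- positive, all prime factors exceed `y` and there are at most `r` of them -/
def AP (y : ℝ) (r : ℕ) (m : ℤ) : Prop :=
  0 < m ∧ (∀ p : ℕ, p.Prime → (p : ℤ) ∣ m → y < p) ∧ ArithmeticFunction.cardFactors m.natAbs ≤ r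

lemma AP_of (θ κ : ℝ) (hκ : 0 < κ) (X M B L : ℕ) (hM : 2 ≤ M) (hXM : (X : ℝ) ^ θ ≤ M)
    (hB : X ^ L ≤ M ^ B) (n : ℤ) (h0 : 0 < n) (hn : n ≤ ((X ^ L : ℕ) : ℤ))
    (h : ∀ p : ℕ, p.Prime → (p : ℝ) ≤ (M : ℝ) ^ κ → ¬ (p : ℤ) ∣ n) :
    AP ((X : ℝ) ^ (θ * κ)) ⌈(B : ℝ) / κ⌉₊ n := by
  refine ⟨h0, ?_⟩
  apply almost_of κ hκ M B hM _ _ n h0 _ h
  · rw [Real.rpow_mul (by positivity)]
    exact Real.rpow_le_rpow (by positivity) hXM hκ.le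
  · exact hn.trans (by exact_mod_cast hB)

lemma AP_mono {X : ℕ} (hX : 1 ≤ X) {κ κ' : ℝ} (hκ : κ' ≤ κ) {r r' : ℕ} (hr : r ≤ r') {m : ℤ}
    (h : AP ((X : ℝ) ^ κ) r m) : AP ((X : ℝ) ^ κ') r' m := by
  obtain ⟨h1, h2, h3⟩ := h
  refine ⟨h1, ?_, h3.trans hr⟩
  intro p hp hd
  exact lt_of_le_of_lt (Real.rpow_le_rpow_of_exponent_le (by exact_mod_cast hX) hκ) (h2 p hp hd)

/-- the conditions on the two constant terms: the sum is even and at most `X`, the terms are larger than the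
values of the forms -/
def Room (a b : ℤ) (X S : ℕ) (H : ℕ) : Prop := (2 : ℤ) ∣ a + b ∧ a + b ≤ X ∧ (S : ℤ) < a ∧ (S : ℤ) + H < b

lemma pair_AP (θ κ : ℝ) (hκ : 0 < κ) (X M B : ℕ) (hM : 2 ≤ M) (hXM : (X : ℝ) ^ θ ≤ M)
    (hB : X ^ 1 ≤ M ^ B) (a b : ℤ) (S H h : ℕ) (hR : Room a b X S H) (hh : h ≤ H) (ν : ℤ) (hν : |ν| ≤ S)
    (hs : ∀ p : ℕ, p.Prime → (p : ℝ) ≤ (M : ℝ) ^ κ → ¬ SP a b p (ν + h)) :
    AP ((X : ℝ) ^ (θ * κ)) ⌈(B : ℝ) / κ⌉₊ (a + (ν + h)) ∧ AP ((X : ℝ) ^ (θ * κ)) ⌈(B : ℝ) / κ⌉₊ (b - (ν + h)) := by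
  obtain ⟨-, h1, h2, h3⟩ := hR
  rw [abs_le] at hν
  have hh' : (h : ℤ) ≤ H := by exact_mod_cast hh
  have hh0 : (0 : ℤ) ≤ h := by positivity
  constructor
  · apply AP_of θ κ hκ X M B 1 hM hXM hB _ (by linarith) (by rw [pow_one]; linarith)
    intro p hp hpM hd
    exact hs p hp hpM (Or.inl hd)
  · apply AP_of θ κ hκ X M B 1 hM hXM hB _ (by linarith) (by rw [pow_one]; linarith)
    intro p hp hpM hd
    exact hs p hp hpM (Or.inr hd)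

open Classical in
/-- **Pairs of almost primes with a given sum at the simplices of dense hypergraphs.** -/
theorem pairs_dense (k t : ℕ) (θ : ℝ) (hθ : 0 < θ) : ∃ (κ : ℝ) (r : ℕ), 0 < κ ∧
    ∀ (A : ℕ) (δ : ℝ), 0 < δ → ∃ (H : ℕ) (C : ℝ), 0 < C ∧ ∃ M₀ : ℕ, ∀ M : ℕ, M₀ ≤ M →
    ∀ (a b : Fin t → ℤ) (X : Fin t → ℕ), (∀ j, (X j : ℝ) ^ θ ≤ M ∧ Room (a j) (b j) (X j) (A * (k + 1) * M) H) →
    ∀ c : Fin t → Fin (k + 1) → ℤ, (∀ j i, c j i ≠ 0 ∧ |c j i| ≤ A) →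
    ∀ E : Fin (k + 1) → (Fin (k + 1) → ℤ) → Prop, Cyl E → δ * (M : ℝ) ^ (k + 1) ≤ (CY M E).card →
    ∃ h : Fin t → ℕ, (∀ j, h j ≤ H) ∧ C * (M : ℝ) ^ (k + 1) / Real.log M ^ (2 * t) ≤
      (((CY M E).filter (fun x => ∀ j, AP ((X j : ℝ) ^ κ) r (a j + (lin (c j) x + h j)) ∧
        AP ((X j : ℝ) ^ κ) r (b j - (lin (c j) x + h j)))).card : ℝ) := by
  obtain ⟨κ, hκ, hS⟩ := forms_dense k t 2
  obtain ⟨B, hB⟩ := pow_bound θ hθ 1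
  refine ⟨θ * κ, ⌈(B : ℝ) / κ⌉₊, by positivity, ?_⟩
  intro A δ hδ
  obtain ⟨H, C, hC, M₀, hM₀⟩ := hS A δ hδ
  refine ⟨H, C, hC, max M₀ 2, ?_⟩
  intro M hM a b X hX c hc E hE hEδ
  have hM2 : 2 ≤ M := (le_max_right _ _).trans hM
  obtain ⟨h, h1, h2⟩ := hM₀ M ((le_max_left _ _).trans hM) (fun j => SP (a j) (b j))
    (fun j => sieve_SP _ _ (hX j).2.1) c hc E hE hEδ
  refine ⟨h, h1, ?_⟩
  rw [mul_comm 2 t]
  refine h2.trans (Nat.cast_le.2 (card_le_card ?_))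
  intro x hx
  rw [mem_filter] at hx ⊢
  refine ⟨hx.1, ?_⟩
  intro j
  have hxM : ∀ i, 1 ≤ x i ∧ x i ≤ M := by
    have h3 := hx.1
    unfold CY PX at h3
    rw [mem_filter, Fintype.mem_piFinset] at h3
    exact fun i => mem_Icc.1 (h3.1 i)
  apply pair_AP θ κ hκ (X j) M B hM2 (hX j).1 (hB _ _ (by omega) (hX j).1) (a j) (b j) (A * (k + 1) * M) H (h j)
    (hX j).2 (h1 j) (lin (c j) x)
  · have := abs_lin_le (c j) A M (fun i => (hc j i).2) x hxM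
    push_cast at this ⊢
    linarith
  · intro p hp hpM
    exact hx.2 j p hp hpM

open Classical in
/-- **Pairs of almost primes with a given sum at monochromatic simplices.** -/
theorem pairs_ramsey (k t : ℕ) (hk : 2 ≤ k) (θ : ℝ) (hθ : 0 < θ) : ∃ (κ : ℝ) (r : ℕ), 0 < κ ∧
    ∀ A q l : ℕ, 1 ≤ q → l ≤ k → ∃ (H : ℕ) (C : ℝ), 0 < C ∧ ∃ M₀ : ℕ, ∀ M : ℕ, M₀ ≤ M →
    ∀ (a b : Fin t → ℤ) (X : Fin t → ℕ), (∀ j, (X j : ℝ) ^ θ ≤ M ∧ Room (a j) (b j) (X j) (A * (k + 1) * M) H) →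
    ∃ h : Fin t → ℕ, (∀ j, h j ≤ H) ∧
    ∀ c : Fin t → Fin (k + 1) → ℤ, (∀ j i, c j i ≠ 0 ∧ |c j i| ≤ A) →
    ∀ χ : Finset ℕ → Fin q, C * (M : ℝ) ^ (k + 1) / Real.log M ^ (2 * t) ≤
      (((Fintype.piFinset (fun _ : Fin (k + 1) => Icc (1 : ℤ) M)).filter (fun x => StrictMono x ∧
        (∃ col, Mono χ l col x) ∧ ∀ j, AP ((X j : ℝ) ^ κ) r (a j + (lin (c j) x + h j)) ∧
        AP ((X j : ℝ) ^ κ) r (b j - (lin (c j) x + h j)))).card : ℝ) := by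
  obtain ⟨κ, hκ, hS⟩ := forms_ramsey k t 2 hk
  obtain ⟨B, hB⟩ := pow_bound θ hθ 1
  refine ⟨θ * κ, ⌈(B : ℝ) / κ⌉₊, by positivity, ?_⟩
  intro A q l hq hl
  obtain ⟨H, C, hC, M₀, hM₀⟩ := hS A q l hq hl
  refine ⟨H, C, hC, max M₀ 2, ?_⟩
  intro M hM a b X hX
  have hM2 : 2 ≤ M := (le_max_right _ _).trans hM
  obtain ⟨h, h1, h2⟩ := hM₀ M ((le_max_left _ _).trans hM) (fun j => SP (a j) (b j))
    (fun j => sieve_SP _ _ (hX j).2.1)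
  refine ⟨h, h1, ?_⟩
  intro c hc χ
  rw [mul_comm 2 t]
  refine (h2 c hc χ).trans (Nat.cast_le.2 (card_le_card ?_))
  intro x hx
  rw [mem_filter] at hx ⊢
  refine ⟨hx.1, hx.2.1, hx.2.2.1, ?_⟩
  intro j
  have hxM : ∀ i, 1 ≤ x i ∧ x i ≤ M := by
    have h3 := hx.1
    rw [Fintype.mem_piFinset] at h3
    exact fun i => mem_Icc.1 (h3 i)
  apply pair_AP θ κ hκ (X j) M B hM2 (hX j).1 (hB _ _ (by omega) (hX j).1) (a j) (b j) (A * (k + 1) * M) H (h j)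
    (hX j).2 (h1 j) (lin (c j) x)
  · have := abs_lin_le (c j) A M (fun i => (hc j i).2) x hxM
    push_cast at this ⊢
    linarith
  · intro p hp hpM
    exact hx.2.2.2 j p hp hpM

/-- the conditions on a progression `a + q n`: coprime, and all terms considered are positive and at most `X ^ L` -/
def RoomQ (q a : ℤ) (X S L : ℕ) (H : ℕ) : Prop :=
  0 < q ∧ IsCoprime q a ∧ q * S < a ∧ a + q * (S + H) ≤ ((X ^ L : ℕ) : ℤ)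

lemma prog_AP (θ κ : ℝ) (hκ : 0 < κ) (X M B L : ℕ) (hM : 2 ≤ M) (hXM : (X : ℝ) ^ θ ≤ M)
    (hB : X ^ L ≤ M ^ B) (q a : ℤ) (S H h : ℕ) (hR : RoomQ q a X S L H) (hh : h ≤ H) (ν : ℤ) (hν : |ν| ≤ S)
    (hs : ∀ p : ℕ, p.Prime → (p : ℝ) ≤ (M : ℝ) ^ κ → ¬ SQ q a p (ν + h)) :
    AP ((X : ℝ) ^ (θ * κ)) ⌈(B : ℝ) / κ⌉₊ (q * (ν + h) + a) := by
  obtain ⟨h0, -, h2, h3⟩ := hR
  rw [abs_le] at hν
  have hh' : (h : ℤ) ≤ H := by exact_mod_cast hh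
  have hh0 : (0 : ℤ) ≤ h := by positivity
  have e1 : q * (-(S : ℤ)) ≤ q * (ν + h) := mul_le_mul_of_nonneg_left (by linarith) h0.le
  have e2 : q * (ν + h) ≤ q * (S + H) := mul_le_mul_of_nonneg_left (by linarith) h0.le
  apply AP_of θ κ hκ X M B L hM hXM hB _ (by linarith) (by linarith)
  intro p hp hpM hd
  exact hs p hp hpM hd

open Classical in
/-- **Almost primes in progressions at the simplices of dense hypergraphs.** -/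
theorem progs_dense (k t L : ℕ) (θ : ℝ) (hθ : 0 < θ) : ∃ (κ : ℝ) (r : ℕ), 0 < κ ∧
    ∀ (A : ℕ) (δ : ℝ), 0 < δ → ∃ (H : ℕ) (C : ℝ), 0 < C ∧ ∃ M₀ : ℕ, ∀ M : ℕ, M₀ ≤ M →
    ∀ (q a : Fin t → ℤ) (X : Fin t → ℕ), (∀ j, (X j : ℝ) ^ θ ≤ M ∧ RoomQ (q j) (a j) (X j) (A * (k + 1) * M) L H) →
    ∀ c : Fin t → Fin (k + 1) → ℤ, (∀ j i, c j i ≠ 0 ∧ |c j i| ≤ A) →
    ∀ E : Fin (k + 1) → (Fin (k + 1) → ℤ) → Prop, Cyl E → δ * (M : ℝ) ^ (k + 1) ≤ (CY M E).card →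
    ∃ h : Fin t → ℕ, (∀ j, h j ≤ H) ∧ C * (M : ℝ) ^ (k + 1) / Real.log M ^ t ≤
      (((CY M E).filter (fun x => ∀ j, AP ((X j : ℝ) ^ κ) r (q j * (lin (c j) x + h j) + a j))).card : ℝ) := by
  obtain ⟨κ, hκ, hS⟩ := forms_dense k t 1
  obtain ⟨B, hB⟩ := pow_bound θ hθ L
  refine ⟨θ * κ, ⌈(B : ℝ) / κ⌉₊, by positivity, ?_⟩
  intro A δ hδ
  obtain ⟨H, C, hC, M₀, hM₀⟩ := hS A δ hδ
  refine ⟨H, C, hC, max M₀ 2, ?_⟩
  intro M hM q a X hX c hc E hE hEδ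
  have hM2 : 2 ≤ M := (le_max_right _ _).trans hM
  obtain ⟨h, h1, h2⟩ := hM₀ M ((le_max_left _ _).trans hM) (fun j => SQ (q j) (a j))
    (fun j => sieve_SQ _ _ (hX j).2.2.1) c hc E hE hEδ
  refine ⟨h, h1, ?_⟩
  rw [mul_one] at h2
  refine h2.trans (Nat.cast_le.2 (card_le_card ?_))
  intro x hx
  rw [mem_filter] at hx ⊢
  refine ⟨hx.1, ?_⟩
  intro j
  have hxM : ∀ i, 1 ≤ x i ∧ x i ≤ M := by
    have h3 := hx.1
    unfold CY PX at h3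
    rw [mem_filter, Fintype.mem_piFinset] at h3
    exact fun i => mem_Icc.1 (h3.1 i)
  apply prog_AP θ κ hκ (X j) M B L hM2 (hX j).1 (hB _ _ (by omega) (hX j).1) (q j) (a j) (A * (k + 1) * M) H (h j)
    (hX j).2 (h1 j) (lin (c j) x)
  · have := abs_lin_le (c j) A M (fun i => (hc j i).2) x hxM
    push_cast at this ⊢
    linarith
  · intro p hp hpM
    exact hx.2 j p hp hpM

open Classical in
/-- **Almost primes in progressions at monochromatic simplices.** -/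
theorem progs_ramsey (k t L : ℕ) (hk : 2 ≤ k) (θ : ℝ) (hθ : 0 < θ) : ∃ (κ : ℝ) (r : ℕ), 0 < κ ∧
    ∀ A m l : ℕ, 1 ≤ m → l ≤ k → ∃ (H : ℕ) (C : ℝ), 0 < C ∧ ∃ M₀ : ℕ, ∀ M : ℕ, M₀ ≤ M →
    ∀ (q a : Fin t → ℤ) (X : Fin t → ℕ), (∀ j, (X j : ℝ) ^ θ ≤ M ∧ RoomQ (q j) (a j) (X j) (A * (k + 1) * M) L H) →
    ∃ h : Fin t → ℕ, (∀ j, h j ≤ H) ∧
    ∀ c : Fin t → Fin (k + 1) → ℤ, (∀ j i, c j i ≠ 0 ∧ |c j i| ≤ A) →
    ∀ χ : Finset ℕ → Fin m, C * (M : ℝ) ^ (k + 1) / Real.log M ^ t ≤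
      (((Fintype.piFinset (fun _ : Fin (k + 1) => Icc (1 : ℤ) M)).filter (fun x => StrictMono x ∧
        (∃ col, Mono χ l col x) ∧ ∀ j, AP ((X j : ℝ) ^ κ) r (q j * (lin (c j) x + h j) + a j))).card : ℝ) := by
  obtain ⟨κ, hκ, hS⟩ := forms_ramsey k t 1 hk
  obtain ⟨B, hB⟩ := pow_bound θ hθ L
  refine ⟨θ * κ, ⌈(B : ℝ) / κ⌉₊, by positivity, ?_⟩
  intro A m l hm hl
  obtain ⟨H, C, hC, M₀, hM₀⟩ := hS A m l hm hl
  refine ⟨H, C, hC, max M₀ 2, ?_⟩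
  intro M hM q a X hX
  have hM2 : 2 ≤ M := (le_max_right _ _).trans hM
  obtain ⟨h, h1, h2⟩ := hM₀ M ((le_max_left _ _).trans hM) (fun j => SQ (q j) (a j))
    (fun j => sieve_SQ _ _ (hX j).2.2.1)
  refine ⟨h, h1, ?_⟩
  intro c hc χ
  have h3 := h2 c hc χ
  rw [mul_one] at h3
  refine h3.trans (Nat.cast_le.2 (card_le_card ?_))
  intro x hx
  rw [mem_filter] at hx ⊢
  refine ⟨hx.1, hx.2.1, hx.2.2.1, ?_⟩
  intro j
  have hxM : ∀ i, 1 ≤ x i ∧ x i ≤ M := by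
    have h3 := hx.1
    rw [Fintype.mem_piFinset] at h3
    exact fun i => mem_Icc.1 (h3 i)
  apply prog_AP θ κ hκ (X j) M B L hM2 (hX j).1 (hB _ _ (by omega) (hX j).1) (q j) (a j) (A * (k + 1) * M) H (h j)
    (hX j).2 (h1 j) (lin (c j) x)
  · have := abs_lin_le (c j) A M (fun i => (hc j i).2) x hxM
    push_cast at this ⊢
    linarith
  · intro p hp hpM
    exact hx.2.2.2 j p hp hpM

end Pool.Agent.H18.HG
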