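import Pool.Agent.H14.MS.Corr
import Pool.Agent.H18.HG.Sv

/-!
# Correlations of balanced functions of several variables at the vertices of a box (helper18)
-/

set_option autoImplicit false
set_option linter.unusedSectionVars false
set_option linter.deprecated false

namespace Pool.Agent.H18.HG

open Finset
open Pool.Agent.H14.SK (Pr Pr_pos prime_dvd_Pr)
open Pool.Agent.H14.MS (Per Bx vec Av mem_Bx card_Bx Av_add Av_const Av_smul Av_sum abs_Av_le Av_mul
  Av_prod sum_sub_Av_le UU UU_subset sum_fam_le Pr_UU_le card_le_D sum_nonempty_le)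

variable {s : ℕ}

/-- the vertex `ω` of the box `z` -/
def vt (ω : Fin s → Bool) (z : Fin s × Bool → ℤ) : Fin s → ℤ := fun i => z (i, ω i)

lemma vt_add (ω : Fin s → Bool) (z z' : Fin s × Bool → ℤ) : vt ω (z + z') = vt ω z + vt ω z' := rfl

lemma per_vt {Q : ℕ} {Φ : (Fin s → ℤ) → ℝ} (h : Per Q Φ) (ω : Fin s → Bool) :
    Per Q (fun z : Fin s × Bool → ℤ => Φ (vt ω z)) :=
  fun _ _ hz => h _ _ fun i => hz (i, ω i)

/-- the average of a function of one vertex -/
lemma Av_vt (Q : ℕ) (hQ : 0 < Q) (Φ : (Fin s → ℤ) → ℝ) (ω : Fin s → Bool) :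
    Av Q (fun z : Fin s × Bool → ℤ => Φ (vt ω z)) = Av Q Φ := by
  classical
  have hQ0 : (0 : ℝ) < Q := by exact_mod_cast hQ
  unfold Av
  have h1 : ∑ t ∈ Bx (Fin s × Bool) Q, Φ (vt ω (vec t)) =
      ∑ x ∈ Bx (Fin s) Q ×ˢ Bx (Fin s) Q, Φ (vec x.1) := by
    apply sum_nbij' (fun t => ((fun i => t (i, ω i)), (fun i => t (i, !(ω i)))))
      (fun x j => if j.2 = ω j.1 then x.1 j.1 else x.2 j.1)
    · intro t ht
      rw [mem_Bx] at ht
      rw [mem_product, mem_Bx, mem_Bx]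
      exact ⟨fun i => ht _, fun i => ht _⟩
    · rintro ⟨x, y⟩ hxy
      rw [mem_product, mem_Bx, mem_Bx] at hxy
      rw [mem_Bx]
      rintro ⟨i, b⟩
      simp only
      split_ifs
      · exact hxy.1 i
      · exact hxy.2 i
    · intro t _
      funext ⟨i, b⟩
      simp only
      split_ifs with h
      · rw [h]
      · congr 2
        cases hb : b <;> cases hω : ω i <;> simp_all
    · rintro ⟨x, y⟩ _
      simp only [Prod.mk.injEq]
      constructor
      · funext i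
        simp
      · funext i
        simp
    · intro t _
      rfl
  rw [h1, sum_product]
  simp only [sum_const, card_Bx, nsmul_eq_mul, Fintype.card_prod, Fintype.card_bool, Fintype.card_fin]
  rw [← mul_sum, pow_mul']
  push_cast
  have h2 : ((Q : ℝ) ^ 2) ^ s = (Q : ℝ) ^ s * (Q : ℝ) ^ s := by
    rw [← mul_pow, sq]
  rw [h2]
  field_simp

/-- the properties of the balanced functions -/
structure BalV (P : Finset ℕ) (τ : ℝ) (Y : ℕ → (Fin s → ℤ) → ℝ) : Prop where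
  prime : ∀ p ∈ P, p.Prime
  per : ∀ p ∈ P, Per p (Y p)
  le_one : ∀ p ∈ P, ∀ x, |Y p x| ≤ 1
  av_zero : ∀ p ∈ P, Av p (Y p) = 0
  pair : ∀ p ∈ P, ∀ ω ω' : Fin s → Bool, ω ≠ ω' →
    Av p (fun z : Fin s × Bool → ℤ => |Y p (vt ω z)| * |Y p (vt ω' z)|) ≤ τ ^ 2 / (p : ℝ) ^ 2

/-- the product attached to a family -/
noncomputable def PV (Y : ℕ → (Fin s → ℤ) → ℝ) (q : (Fin s → Bool) → Finset ℕ)
    (z : Fin s × Bool → ℤ) : ℝ := ∏ ω, ∏ p ∈ q ω, Y p (vt ω z)

section

variable {P : Finset ℕ} {τ : ℝ} {Y : ℕ → (Fin s → ℤ) → ℝ}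

lemma Av_TV (hY : BalV P τ Y) (p : ℕ) (hp : p ∈ P) (T : Finset (Fin s → Bool)) (hT : T.Nonempty) :
    |Av p (fun z : Fin s × Bool → ℤ => ∏ ω ∈ T, Y p (vt ω z))| ≤ τ ^ 2 / (p : ℝ) ^ 2 := by
  have hpp := hY.prime p hp
  obtain ⟨ω, hω⟩ := hT
  by_cases h1 : T = {ω}
  · rw [h1]
    simp only [prod_singleton]
    rw [Av_vt p hpp.pos (Y p) ω, hY.av_zero p hp, abs_zero]
    positivity
  · obtain ⟨ω', hω', hne⟩ : ∃ ω' ∈ T, ω' ≠ ω := by
      by_contra hcon
      push Not at hcon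
      apply h1
      ext x
      rw [mem_singleton]
      exact ⟨hcon x, fun h => h ▸ hω⟩
    have h2 := abs_Av_le p (fun z : Fin s × Bool → ℤ => ∏ ω ∈ T, Y p (vt ω z))
      (fun z => |Y p (vt ω z)| * |Y p (vt ω' z)|) (by
        intro z
        rw [abs_prod]
        have hsub : ({ω, ω'} : Finset (Fin s → Bool)) ⊆ T := by
          intro x hx
          rw [mem_insert, mem_singleton] at hx
          rcases hx with rfl | rfl
          · exact hω
          · exact hω'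
        rw [← prod_sdiff hsub, prod_pair (Ne.symm hne)]
        have h3 : ∏ x ∈ T \ {ω, ω'}, |Y p (vt x z)| ≤ 1 :=
          prod_le_one (fun _ _ => abs_nonneg _) (fun _ _ => hY.le_one p hp _)
        have h4 : 0 ≤ |Y p (vt ω z)| * |Y p (vt ω' z)| := by positivity
        nlinarith)
    exact h2.trans (hY.pair p hp ω ω' (Ne.symm hne))

lemma PV_eq (q : (Fin s → Bool) → Finset ℕ) (z : Fin s × Bool → ℤ) :
    PV Y q z = ∏ p ∈ UU q, ∏ ω ∈ univ.filter (fun ω => p ∈ q ω), Y p (vt ω z) := by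
  unfold PV
  apply prod_comm'
  intro ω p
  unfold UU
  simp only [mem_univ, true_and, mem_filter, mem_biUnion]
  exact ⟨fun h => ⟨h, ⟨ω, h⟩⟩, fun h => h.1⟩

lemma abs_PV_le (hY : BalV P τ Y) (q : (Fin s → Bool) → Finset ℕ) (hq : ∀ ω, q ω ⊆ P)
    (z : Fin s × Bool → ℤ) : |PV Y q z| ≤ 1 := by
  unfold PV
  rw [abs_prod]
  apply prod_le_one (fun _ _ => abs_nonneg _)
  intro ω _
  rw [abs_prod]
  exact prod_le_one (fun _ _ => abs_nonneg _) (fun p hp => hY.le_one p (hq ω hp) _)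

lemma fam_AvV (hY : BalV P τ Y) (q : (Fin s → Bool) → Finset ℕ) (hq : ∀ ω, q ω ⊆ P) :
    Per (Pr (UU q)) (PV Y q) ∧ |Av (Pr (UU q)) (PV Y q)| ≤ ∏ p ∈ UU q, (τ ^ 2 / (p : ℝ) ^ 2) := by
  have hU := UU_subset (P := P) q hq
  have e : PV Y q = fun z => ∏ p ∈ UU q, ∏ ω ∈ univ.filter (fun ω => p ∈ q ω), Y p (vt ω z) := by
    funext z
    exact PV_eq q z
  have h := Av_prod (J := Fin s × Bool) (UU q) (fun p hp => hY.prime p (hU hp))
    (fun p z => ∏ ω ∈ univ.filter (fun ω => p ∈ q ω), Y p (vt ω z)) (fun p hp => by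
      apply Per.prod
      intro ω _
      exact per_vt (hY.per p (hU hp)) ω)
  rw [e]
  refine ⟨h.1, ?_⟩
  have h2 := h.2
  unfold Pr
  rw [h2, abs_prod]
  apply prod_le_prod (fun _ _ => abs_nonneg _)
  intro p hp
  apply Av_TV hY p (hU hp)
  obtain ⟨ω, _, h⟩ := mem_biUnion.1 hp
  exact ⟨ω, by simp [h]⟩

/-- the points of the box -/
noncomputable def KB (s M : ℕ) : Finset (Fin s × Bool → ℤ) := Fintype.piFinset (fun _ => Icc (1 : ℤ) M)

lemma mem_KB {M : ℕ} {z : Fin s × Bool → ℤ} : z ∈ KB s M ↔ ∀ j, 1 ≤ z j ∧ z j ≤ M := by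
  unfold KB
  rw [Fintype.mem_piFinset]
  simp only [mem_Icc]

lemma card_KB (s M : ℕ) : (KB s M).card = M ^ (2 * s) := by
  unfold KB
  rw [Fintype.card_piFinset]
  simp only [Int.card_Icc, prod_const, card_univ, Fintype.card_prod, Fintype.card_bool, Fintype.card_fin]
  rw [mul_comm]
  congr 1
  omega

/-- the number of the points near the boundary -/
lemma bdryB (M Q : ℕ) (hM : 1 ≤ M) (t : Fin s × Bool → ℕ) (ht : t ∈ Bx (Fin s × Bool) Q) :
    (((KB s M).filter (fun z => z + vec t ∉ KB s M)).card : ℝ) ≤ 2 * s * Q * M ^ (2 * s) / M := by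
  classical
  rw [mem_Bx] at ht
  have hM0 : (0 : ℝ) < M := by exact_mod_cast hM
  obtain ⟨R, hR⟩ : ∃ R : Fin s × Bool → Finset (Fin s × Bool → ℤ), R = fun j =>
    Fintype.piFinset (fun i => if i = j then Ioc ((M : ℤ) - Q) M else Icc (1 : ℤ) M) := ⟨_, rfl⟩
  have hsub : (KB s M).filter (fun z => z + vec t ∉ KB s M) ⊆ univ.biUnion R := by
    intro z hz
    rw [mem_filter, mem_KB, mem_KB] at hz
    obtain ⟨h1, h2⟩ := hz
    push Not at h2
    obtain ⟨j, h3⟩ := h2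
    rw [mem_biUnion]
    refine ⟨j, mem_univ _, ?_⟩
    rw [hR]
    simp only
    rw [Fintype.mem_piFinset]
    intro i
    split_ifs with hi
    · subst hi
      rw [mem_Ioc]
      simp only [Pi.add_apply, vec] at h3
      have h4 := h3 (by have := (h1 i).1; omega)
      have := ht i
      exact ⟨by omega, (h1 i).2⟩
    · rw [mem_Icc]
      exact h1 i
  have hcard : ∀ j, ((R j).card : ℝ) ≤ Q * M ^ (2 * s) / M := by
    intro j
    rw [hR]
    simp only
    rw [Fintype.card_piFinset, ← mul_prod_erase univ _ (mem_univ j), if_pos rfl]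
    have h1 : ∏ x ∈ univ.erase j, (if x = j then Ioc ((M : ℤ) - Q) M else Icc (1 : ℤ) M).card =
        M ^ (2 * s - 1) := by
      have : ∀ x ∈ univ.erase j, (if x = j then Ioc ((M : ℤ) - Q) M else Icc (1 : ℤ) M).card = M := by
        intro x hx
        rw [if_neg (ne_of_mem_erase hx), Int.card_Icc]
        omega
      rw [prod_congr rfl this, prod_const, card_erase_of_mem (mem_univ j), card_univ, Fintype.card_prod,
        Fintype.card_bool, Fintype.card_fin, mul_comm]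
    rw [h1, Int.card_Ioc]
    have h2 : ((M : ℤ) - (M - Q)).toNat = Q := by omega
    rw [h2]
    have hs : 1 ≤ s := by
      have := j.1.pos
      omega
    have h3 : (M : ℝ) ^ (2 * s) = M ^ (2 * s - 1) * M := by
      rw [← pow_succ]
      congr 1
      omega
    rw [h3]
    push_cast
    apply le_of_eq
    field_simp
  calc (((KB s M).filter (fun z => z + vec t ∉ KB s M)).card : ℝ) ≤ ((univ.biUnion R).card : ℝ) := by
        exact_mod_cast card_le_card hsub
    _ ≤ ∑ j, ((R j).card : ℝ) := by exact_mod_cast card_biUnion_le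
    _ ≤ ∑ _j : Fin s × Bool, (Q * M ^ (2 * s) / M : ℝ) := sum_le_sum fun j _ => hcard j
    _ = 2 * s * Q * M ^ (2 * s) / M := by
        rw [sum_const, card_univ, Fintype.card_prod, Fintype.card_bool, Fintype.card_fin, nsmul_eq_mul]
        push_cast
        ring

/-- **The correlations of an expansion without constant term at the vertices of boxes are small.** -/
theorem corrB (hY : BalV P τ Y) (w D M : ℕ) (hw : 1 ≤ w) (hM : 1 ≤ M) (hPw : ∀ p ∈ P, w < p)
    (𝒬 : Finset (Finset ℕ)) (h𝒬 : ∀ q ∈ 𝒬, (q ⊆ P ∧ q.Nonempty) ∧ Pr q ≤ D) (c : Finset ℕ → ℝ) (B C : ℝ)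
    (hB : 0 ≤ B) (hC : 1 ≤ C) (hCw : C ≤ w) (hc : ∀ q ∈ 𝒬, |c q| ≤ B * C ^ q.card)
    (hE : (2 * C) ^ (2 ^ s) * τ ^ 2 ≤ w) :
    |∑ z ∈ KB s M, ∏ ω : Fin s → Bool, ∑ q ∈ 𝒬, c q * ∏ p ∈ q, Y p (vt ω z)| ≤
      B ^ (2 ^ s) * (M ^ (2 * s) * (2 * ((2 * C) ^ (2 ^ s) * τ ^ 2) / w +
        4 * s * D ^ (3 * 2 ^ s) / M)) := by
  have hP := hY.prime
  have hM0 : (0 : ℝ) < M := by exact_mod_cast hM
  have hcardΩ : (univ : Finset (Fin s → Bool)).card = 2 ^ s := by
    rw [card_univ, Fintype.card_fun, Fintype.card_bool, Fintype.card_fin]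
  have e1 : ∑ z ∈ KB s M, ∏ ω : Fin s → Bool, ∑ q ∈ 𝒬, c q * ∏ p ∈ q, Y p (vt ω z) =
      ∑ q ∈ Fintype.piFinset (fun _ : Fin s → Bool => 𝒬), (∏ ω, c (q ω)) * ∑ z ∈ KB s M, PV Y q z := by
    have e2 : ∀ z ∈ KB s M, ∏ ω : Fin s → Bool, ∑ q ∈ 𝒬, c q * ∏ p ∈ q, Y p (vt ω z) =
        ∑ q ∈ Fintype.piFinset (fun _ : Fin s → Bool => 𝒬), (∏ ω, c (q ω)) * PV Y q z := by
      intro z _
      rw [Finset.prod_univ_sum]
      apply sum_congr rfl
      intro q _
      rw [prod_mul_distrib]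
      rfl
    rw [sum_congr rfl e2, sum_comm]
    apply sum_congr rfl
    intro q _
    rw [mul_sum]
  -- one family
  have hfam : ∀ q ∈ Fintype.piFinset (fun _ : Fin s → Bool => 𝒬),
      |(∏ ω, c (q ω)) * ∑ z ∈ KB s M, PV Y q z| ≤
      B ^ (2 ^ s) * (M ^ (2 * s) * (C ^ (2 ^ s * (UU q).card) * ∏ p ∈ UU q, (τ ^ 2 / (p : ℝ) ^ 2))) +
      B ^ (2 ^ s) * (4 * s * D ^ (2 * 2 ^ s) * M ^ (2 * s) / M) := by
    intro q hq
    rw [Fintype.mem_piFinset] at hq
    have hqP : ∀ ω, q ω ⊆ P := fun ω => (h𝒬 _ (hq ω)).1.1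
    have hqD : ∀ ω, Pr (q ω) ≤ D := fun ω => (h𝒬 _ (hq ω)).2
    have hU := UU_subset (P := P) q hqP
    obtain ⟨hper, hav⟩ := fam_AvV hY q hqP
    have hQ : 0 < Pr (UU q) := Pr_pos fun p hp => hP p (hU hp)
    have hsum := sum_sub_Av_le (Pr (UU q)) hQ (PV Y q) hper (abs_PV_le hY q hqP) (KB s M)
      (2 * s * (Pr (UU q) : ℕ) * M ^ (2 * s) / M) (fun t ht => bdryB M (Pr (UU q)) hM t ht)
    have hQD : ((Pr (UU q) : ℕ) : ℝ) ≤ (D : ℝ) ^ (2 ^ s) := by
      exact_mod_cast Pr_UU_le hP D q hqP hqD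
    have hKc : ((KB s M).card : ℝ) = M ^ (2 * s) := by
      rw [card_KB]
      push_cast
      rfl
    have hprod0 : 0 ≤ ∏ p ∈ UU q, (τ ^ 2 / (p : ℝ) ^ 2) := prod_nonneg fun _ _ => by positivity
    have h1 : |∑ z ∈ KB s M, PV Y q z| ≤ M ^ (2 * s) * (∏ p ∈ UU q, (τ ^ 2 / (p : ℝ) ^ 2)) +
        4 * s * D ^ (2 ^ s) * M ^ (2 * s) / M := by
      have h2 : |((KB s M).card : ℝ) * Av (Pr (UU q)) (PV Y q)| ≤
          M ^ (2 * s) * (∏ p ∈ UU q, (τ ^ 2 / (p : ℝ) ^ 2)) := by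
        rw [abs_mul, abs_of_nonneg (Nat.cast_nonneg _), hKc]
        exact mul_le_mul le_rfl hav (abs_nonneg _) (by positivity)
      have h3 : |∑ z ∈ KB s M, PV Y q z| ≤ |∑ z ∈ KB s M, PV Y q z - (KB s M).card * Av (Pr (UU q)) (PV Y q)| +
          |((KB s M).card : ℝ) * Av (Pr (UU q)) (PV Y q)| := by
        have := abs_add_le (∑ z ∈ KB s M, PV Y q z - (KB s M).card * Av (Pr (UU q)) (PV Y q))
          (((KB s M).card : ℝ) * Av (Pr (UU q)) (PV Y q))
        rwa [sub_add_cancel] at this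
      have h4 : 2 * (2 * s * ((Pr (UU q) : ℕ) : ℝ) * M ^ (2 * s) / M) ≤
          4 * s * D ^ (2 ^ s) * M ^ (2 * s) / M := by
        calc 2 * (2 * s * ((Pr (UU q) : ℕ) : ℝ) * M ^ (2 * s) / M) =
              4 * s * ((Pr (UU q) : ℕ) : ℝ) * M ^ (2 * s) / M := by ring
          _ ≤ _ := by gcongr
      linarith
    have hc1 : |∏ ω, c (q ω)| ≤ B ^ (2 ^ s) * C ^ (2 ^ s * (UU q).card) := by
      rw [abs_prod]
      calc ∏ ω, |c (q ω)| ≤ ∏ _ω : Fin s → Bool, (B * C ^ (UU q).card) := by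
            apply prod_le_prod (fun _ _ => abs_nonneg _)
            intro ω _
            refine (hc _ (hq ω)).trans ?_
            apply mul_le_mul_of_nonneg_left _ hB
            apply pow_le_pow_right₀ hC
            exact card_le_card (subset_biUnion_of_mem q (mem_univ ω))
        _ = _ := by
            rw [prod_const, hcardΩ, mul_pow, ← pow_mul]
            congr 2
            ring
    have hc2 : |∏ ω, c (q ω)| ≤ B ^ (2 ^ s) * D ^ (2 ^ s) := by
      rw [abs_prod]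
      calc ∏ ω, |c (q ω)| ≤ ∏ _ω : Fin s → Bool, (B * D) := by
            apply prod_le_prod (fun _ _ => abs_nonneg _)
            intro ω _
            refine (hc _ (hq ω)).trans ?_
            apply mul_le_mul_of_nonneg_left _ hB
            calc C ^ (q ω).card = ∏ p ∈ q ω, C := by rw [prod_const]
              _ ≤ ∏ p ∈ q ω, (p : ℝ) := by
                  apply prod_le_prod
                  · intro _ _
                    linarith
                  · intro p hp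
                    have : (w : ℝ) ≤ p := by exact_mod_cast (hPw p (hqP ω hp)).le
                    linarith
              _ = ((Pr (q ω) : ℕ) : ℝ) := by
                  unfold Pr
                  push_cast
                  rfl
              _ ≤ D := by exact_mod_cast hqD ω
        _ = _ := by
            rw [prod_const, hcardΩ, mul_pow]
    rw [abs_mul]
    calc |∏ ω, c (q ω)| * |∑ z ∈ KB s M, PV Y q z|
        ≤ |∏ ω, c (q ω)| * (M ^ (2 * s) * (∏ p ∈ UU q, (τ ^ 2 / (p : ℝ) ^ 2)) +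
          4 * s * D ^ (2 ^ s) * M ^ (2 * s) / M) :=
          mul_le_mul_of_nonneg_left h1 (abs_nonneg _)
      _ = |∏ ω, c (q ω)| * (M ^ (2 * s) * (∏ p ∈ UU q, (τ ^ 2 / (p : ℝ) ^ 2))) +
          |∏ ω, c (q ω)| * (4 * s * D ^ (2 ^ s) * M ^ (2 * s) / M) := by ring
      _ ≤ (B ^ (2 ^ s) * C ^ (2 ^ s * (UU q).card)) *
            (M ^ (2 * s) * (∏ p ∈ UU q, (τ ^ 2 / (p : ℝ) ^ 2))) +
          (B ^ (2 ^ s) * D ^ (2 ^ s)) * (4 * s * D ^ (2 ^ s) * M ^ (2 * s) / M) :=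
          add_le_add (mul_le_mul_of_nonneg_right hc1 (by positivity))
            (mul_le_mul_of_nonneg_right hc2 (by positivity))
      _ = _ := by ring
  rw [e1]
  refine (abs_sum_le_sum_abs _ _).trans ((sum_le_sum hfam).trans ?_)
  rw [sum_add_distrib, ← mul_sum, ← mul_sum, sum_const, nsmul_eq_mul, mul_add ((M : ℝ) ^ (2 * s)),
    mul_add (B ^ (2 ^ s))]
  apply add_le_add
  · apply mul_le_mul_of_nonneg_left _ (by positivity)
    apply mul_le_mul_of_nonneg_left _ (by positivity)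
    have h1 := sum_fam_le (s := s) (P := P) 𝒬 (fun q hq => (h𝒬 q hq).1)
      (fun U => C ^ (2 ^ s * U.card) * ∏ p ∈ U, (τ ^ 2 / (p : ℝ) ^ 2))
      (fun U => mul_nonneg (by positivity) (prod_nonneg fun _ _ => by positivity))
    refine h1.trans ?_
    have h2 : ∀ U : Finset ℕ, (2 : ℝ) ^ (2 ^ s * U.card) *
        (C ^ (2 ^ s * U.card) * ∏ p ∈ U, (τ ^ 2 / (p : ℝ) ^ 2)) =
        ∏ p ∈ U, (((2 * C) ^ (2 ^ s) * τ ^ 2) / (p : ℝ) ^ 2) := by
      intro U
      have : ∀ p ∈ U, ((2 * C) ^ (2 ^ s) * τ ^ 2) / (p : ℝ) ^ 2 =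
          (2 * C) ^ (2 ^ s) * (τ ^ 2 / (p : ℝ) ^ 2) := fun p _ => by ring
      rw [prod_congr rfl this, prod_mul_distrib, prod_const, ← pow_mul, mul_pow]
      ring
    simp only [h2]
    exact sum_nonempty_le w hw P hPw _ (by positivity) hE
  · have hcard : ((Fintype.piFinset (fun _ : Fin s → Bool => 𝒬)).card : ℝ) ≤ (D : ℝ) ^ (2 ^ s) := by
      rw [Fintype.card_piFinset]
      simp only [prod_const, hcardΩ]
      have := Nat.pow_le_pow_left (card_le_D hP D 𝒬 fun q hq => ⟨(h𝒬 q hq).1.1, (h𝒬 q hq).2⟩) (2 ^ s)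
      exact_mod_cast this
    calc ((Fintype.piFinset (fun _ : Fin s → Bool => 𝒬)).card : ℝ) *
          (B ^ (2 ^ s) * (4 * s * D ^ (2 * 2 ^ s) * M ^ (2 * s) / M))
        ≤ (D : ℝ) ^ (2 ^ s) * (B ^ (2 ^ s) * (4 * s * D ^ (2 * 2 ^ s) * M ^ (2 * s) / M)) :=
          mul_le_mul_of_nonneg_right hcard (by positivity)
      _ = _ := by ring

end

end Pool.Agent.H18.HG
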