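import Pool.Agent.H18.HG.Cnt
import Pool.Graph.R_seed8.Helper256.KM.Mertens

/-!
# Sifting the points of an intersection of cylinder sets in a residue class (helper18)
-/

set_option autoImplicit false
set_option linter.unusedSectionVars false
set_option linter.deprecated false

namespace Pool.Agent.H18.HG

open Finset Filter Topology
open Pool.Agent.H14.MS (sum_inv_sq_le)

lemma one_sub_ge (x : ℝ) (h0 : 0 ≤ x) (h1 : x ≤ 1 / 2) : Real.exp (-(x + 2 * x ^ 2)) ≤ 1 - x := by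
  have h2 := Real.abs_log_sub_add_sum_range_le (x := x) (by rw [abs_of_nonneg h0]; linarith) 1
  rw [sum_range_one, abs_of_nonneg h0] at h2
  norm_num at h2
  have h3 := (abs_le.1 h2).1
  have h4 : x ^ 2 / (1 - x) ≤ 2 * x ^ 2 := by
    rw [div_le_iff₀ (by linarith)]
    nlinarith [sq_nonneg x]
  have h5 : -(x + 2 * x ^ 2) ≤ Real.log (1 - x) := by linarith
  calc Real.exp (-(x + 2 * x ^ 2)) ≤ Real.exp (Real.log (1 - x)) := Real.exp_le_exp.2 h5
    _ = 1 - x := Real.exp_log (by linarith)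

/-- a lower bound for the sifting product -/
lemma VG_ge (g : ℕ) : ∃ c : ℝ, 0 < c ∧ ∀ w z M : ℕ, 1 ≤ w → 2 * g ≤ w → z ≤ M → 3 ≤ M →
    c / Real.log M ^ g ≤ VG g w z := by
  obtain ⟨C1, hC1⟩ := Pool.Agent.Helper256.KM.mertens_inv
  refine ⟨Real.exp (-(g * C1 + 2 * g ^ 2)), Real.exp_pos _, ?_⟩
  intro w z M hw hgw hzM hM
  have hL0 : 0 < Real.log M := Real.log_pos (by exact_mod_cast (by omega : 1 < M))
  obtain ⟨R, hR⟩ : ∃ R, R = (Ioc w z).filter Nat.Prime := ⟨_, rfl⟩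
  unfold VG
  rw [← hR]
  have hRm : ∀ p ∈ R, p.Prime ∧ w < p ∧ p ≤ z := by
    intro p hp
    rw [hR, mem_filter, mem_Ioc] at hp
    exact ⟨hp.2, hp.1.1, hp.1.2⟩
  have h3 : ∏ p ∈ R, Real.exp (-((g : ℝ) / p + 2 * ((g : ℝ) / p) ^ 2)) ≤ ∏ p ∈ R, (1 - (g : ℝ) / p) := by
    apply Finset.prod_le_prod (fun _ _ => (Real.exp_pos _).le)
    intro p hp
    obtain ⟨hpp, hpw, _⟩ := hRm p hp
    have hp0 : (0 : ℝ) < p := by exact_mod_cast hpp.pos
    have h4 : (g : ℝ) / p ≤ 1 / 2 := by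
      rw [div_le_div_iff₀ hp0 (by norm_num)]
      have : (2 * g : ℝ) ≤ p := by exact_mod_cast (by omega : 2 * g ≤ p)
      linarith
    exact one_sub_ge _ (by positivity) h4
  refine le_trans ?_ h3
  rw [← Real.exp_sum]
  have h4 : ∑ p ∈ R, 1 / (p : ℝ) ≤ Real.log (Real.log M) + C1 := by
    have h5 := (abs_le.1 (hC1 M hM)).2
    have h6 : ∑ p ∈ R, 1 / (p : ℝ) ≤ ∑ p ∈ (Icc 1 M).filter Nat.Prime, (1 : ℝ) / p := by
      apply sum_le_sum_of_subset_of_nonneg
      · intro p hp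
        obtain ⟨hpp, _, hpz⟩ := hRm p hp
        rw [mem_filter, mem_Icc]
        exact ⟨⟨hpp.pos, by omega⟩, hpp⟩
      · intro _ _ _
        positivity
    linarith
  have h5 : ∑ p ∈ R, 1 / (p : ℝ) ^ 2 ≤ 1 := by
    have := sum_inv_sq_le 1 le_rfl R (fun p hp => (hRm p hp).1.one_lt)
    simpa using this
  have h6 : Real.exp (-(g * C1 + 2 * g ^ 2)) / Real.log M ^ g =
      Real.exp (-(g * C1 + 2 * g ^ 2) - g * Real.log (Real.log M)) := by
    rw [Real.exp_sub, Real.exp_nat_mul, Real.exp_log hL0]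
  rw [h6]
  apply Real.exp_le_exp.2
  have h7 : ∑ p ∈ R, (-((g : ℝ) / p + 2 * ((g : ℝ) / p) ^ 2)) =
      -(g * ∑ p ∈ R, 1 / (p : ℝ)) - 2 * g ^ 2 * ∑ p ∈ R, 1 / (p : ℝ) ^ 2 := by
    rw [mul_sum, mul_sum, ← sum_neg_distrib, ← sum_sub_distrib]
    apply sum_congr rfl
    intro p _
    ring
  rw [h7]
  have h8 := mul_le_mul_of_nonneg_left h4 (Nat.cast_nonneg (α := ℝ) g)
  have h9 := mul_le_mul_of_nonneg_left h5 (show (0 : ℝ) ≤ 2 * g ^ 2 by positivity)
  nlinarith

variable {s : ℕ}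

/-- the affine substitution -/
def sb (a : Fin s → ℤ) (W : ℕ) (y : Fin s → ℤ) : Fin s → ℤ := fun i => a i + W * (y i - 1)

/-- the condition after the substitution -/
def TS (T : ℕ → (Fin s → ℤ) → Prop) (a : Fin s → ℤ) (W p : ℕ) (y : Fin s → ℤ) : Prop := T p (sb a W y)

lemma TS_per {T : ℕ → (Fin s → ℤ) → Prop} (hT : PerT T) (a : Fin s → ℤ) (W : ℕ) : PerT (TS T a W) := by
  intro p x y h
  apply hT
  intro i
  have e : sb a W x i - sb a W y i = W * (x i - y i) := by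
    unfold sb
    ring
  rw [e]
  exact (h i).mul_left _

lemma TS_fib {T : ℕ → (Fin s → ℤ) → Prop} (hT : PerT T) {g w : ℕ} (hF : Fib T g w) (a : Fin s → ℤ) (W : ℕ)
    (hW : ∀ p : ℕ, p.Prime → w < p → ¬ p ∣ W) : Fib (TS T a W) g w := by
  classical
  intro p hp hpw i x
  refine le_trans ?_ (hF p hp hpw i (sb a W x))
  have hp0 : (0 : ℤ) < p := by exact_mod_cast hp.pos
  apply card_le_card_of_injOn (fun t : ℕ => (W * t) % p)
  · intro t ht
    simp only [coe_filter, Set.mem_setOf_eq, mem_range] at ht ⊢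
    refine ⟨Nat.mod_lt _ hp.pos, ?_⟩
    refine (hT p _ _ ?_).1 ht.2
    intro j
    by_cases hj : j = i
    · subst hj
      simp only [sb, Pi.add_apply, Pi.single_eq_same]
      have h1 : (((W * t) % p : ℕ) : ℤ) = ((W : ℤ) * t) % p := by push_cast; rfl
      rw [h1]
      have h2 : (p : ℤ) ∣ (W : ℤ) * t - ((W : ℤ) * t) % p := Int.dvd_self_sub_emod
      have e : a j + W * (x j + t - 1) - (a j + W * (x j - 1) + (W : ℤ) * t % p) =
          (W : ℤ) * t - ((W : ℤ) * t) % p := by ring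
      rw [e]
      exact h2
    · simp only [sb, Pi.add_apply, Pi.single_eq_of_ne hj, add_zero, sub_self, dvd_zero]
  · intro t ht t' ht' h
    simp only [coe_filter, Set.mem_setOf_eq, mem_range] at ht ht'
    have hco : Nat.Coprime p W := (Nat.Prime.coprime_iff_not_dvd hp).2 (hW p hp hpw)
    have h2 : t ≡ t' [MOD p] := Nat.ModEq.cancel_left_of_coprime hco h
    exact Nat.ModEq.eq_of_lt_of_lt h2 ht.1 ht'.1

open Classical in
/-- **The count in a residue class.** -/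
theorem class_count (k g : ℕ) : ∃ κ c : ℝ, 0 < κ ∧ 0 < c ∧ ∀ η : ℝ, 0 < η → ∃ w₀ : ℕ, ∀ w : ℕ, w₀ ≤ w →
    ∃ M₀ : ℕ, ∀ M : ℕ, M₀ ≤ M → ∀ T : ℕ → (Fin (k + 1) → ℤ) → Prop, PerT T → Fib T g w →
    ∀ a : Fin (k + 1) → ℤ, (∀ i, 1 ≤ a i ∧ a i ≤ primorial w) → (∀ p : ℕ, p.Prime → p ≤ w → ¬ T p a) →
    ∀ b : Fin (k + 1) → (Fin (k + 1) → ℤ) → Prop, Cyl b →
    c / Real.log M ^ g * ((((CY M b).filter (fun x => ∀ i, (primorial w : ℤ) ∣ x i - a i)).card : ℝ) -
        η * ((M : ℝ) / primorial w) ^ (k + 1)) ≤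
      (((CY M b).filter (fun x => (∀ i, (primorial w : ℤ) ∣ x i - a i) ∧
        ∀ p : ℕ, p.Prime → (p : ℝ) ≤ (M : ℝ) ^ κ → ¬ T p x)).card : ℝ) := by
  obtain ⟨B, C, hC1, hcount⟩ := countV k g
  obtain ⟨c0, hc0, hVG⟩ := VG_ge g
  obtain ⟨E, hE⟩ : ∃ E, E = (4 * B + 6) * (3 * 2 ^ (k + 1)) := ⟨_, rfl⟩
  have hE0 : 0 < E := by rw [hE]; positivity
  obtain ⟨κ, hκ⟩ : ∃ κ : ℝ, κ = 1 / (2 * E) := ⟨_, rfl⟩
  have hκ0 : 0 < κ := by rw [hκ]; positivity
  have hκ1 : κ ≤ 1 := by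
    rw [hκ, div_le_one (by positivity)]
    have : (1 : ℝ) ≤ E := by exact_mod_cast hE0
    linarith
  refine ⟨κ, c0 / 2, hκ0, by positivity, ?_⟩
  intro η hη
  obtain ⟨E1, hE1⟩ : ∃ E1 : ℝ, E1 = (2 * C) ^ (2 ^ (k + 1)) * (2 * g) ^ 2 := ⟨_, rfl⟩
  have hE10 : 0 ≤ E1 := by rw [hE1]; positivity
  obtain ⟨η', hη'⟩ : ∃ η', η' = (η / 6) ^ (2 ^ (k + 1)) := ⟨_, rfl⟩
  have hη'0 : 0 < η' := by rw [hη']; positivity
  obtain ⟨w₀, hw₀⟩ : ∃ w₀ : ℕ, ∀ w : ℕ, w₀ ≤ w → 3 ≤ w ∧ 2 * g ≤ w ∧ C ≤ w ∧ E1 ≤ w ∧ 2 * E1 / w ≤ η' / 2 := by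
    obtain ⟨w₀, hw₀⟩ := exists_nat_ge (max (max (3 : ℝ) (2 * (g : ℝ))) (max (max C E1) (4 * E1 / η')))
    refine ⟨w₀, ?_⟩
    intro w hw1
    have hw : max (max (3 : ℝ) (2 * (g : ℝ))) (max (max C E1) (4 * E1 / η')) ≤ w :=
      hw₀.trans (by exact_mod_cast hw1)
    have a1 : (3 : ℝ) ≤ w := le_trans (le_trans (le_max_left _ _) (le_max_left _ _)) hw
    have a2 : (2 * g : ℝ) ≤ w := le_trans (le_trans (le_max_right _ _) (le_max_left _ _)) hw
    have a3 : C ≤ w := le_trans (le_trans (le_trans (le_max_left _ _) (le_max_left _ _)) (le_max_right _ _)) hw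
    have a4 : E1 ≤ w := le_trans (le_trans (le_trans (le_max_right _ _) (le_max_left _ _)) (le_max_right _ _)) hw
    have a5 : 4 * E1 / η' ≤ w := le_trans (le_trans (le_max_right _ _) (le_max_right _ _)) hw
    refine ⟨by exact_mod_cast a1, by exact_mod_cast a2, a3, a4, ?_⟩
    rw [div_le_iff₀ (by linarith)]
    rw [div_le_iff₀ hη'0] at a5
    linarith
  refine ⟨w₀, ?_⟩
  intro w hww
  obtain ⟨hw1, hw2, hw3, hw4, hw5⟩ := hw₀ w hww
  obtain ⟨W, hW⟩ : ∃ W, W = primorial w := ⟨_, rfl⟩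
  rw [← hW]
  have hW0 : 0 < W := by rw [hW]; exact primorial_pos w
  have hWr : (0 : ℝ) < W := by exact_mod_cast hW0
  have t3 : Tendsto (fun N : ℕ => (N : ℝ) ^ κ) atTop atTop :=
    (tendsto_rpow_atTop hκ0).comp tendsto_natCast_atTop_atTop
  have t2 : Tendsto (fun N : ℕ => (N : ℝ) ^ (1 / 2 : ℝ)) atTop atTop :=
    (tendsto_rpow_atTop (by norm_num)).comp tendsto_natCast_atTop_atTop
  have hev := (((t3.eventually_ge_atTop 3).and (eventually_ge_atTop (2 * W))).and
    (t2.eventually_ge_atTop (4 * (k + 1) * (2 * W) * 2 / η'))).and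
    ((eventually_ge_atTop 3).and (tendsto_natCast_atTop_atTop.eventually_ge_atTop
      (2 * (k + 1) * (W : ℝ) ^ (k + 2) / η)))
  obtain ⟨M₀, hM₀⟩ := eventually_atTop.1 hev
  refine ⟨M₀, ?_⟩
  intro M hM T hT hF a ha h0 b hb
  obtain ⟨⟨⟨g1, g2⟩, g3⟩, ⟨g5, g6⟩⟩ := hM₀ M hM
  have hM0 : (0 : ℝ) < M := by exact_mod_cast (by omega : 0 < M)
  have hM1 : (1 : ℝ) < M := by exact_mod_cast (by omega : 1 < M)
  have hL0 : 0 < Real.log M := Real.log_pos hM1
  -- the length in the class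
  obtain ⟨S, hS⟩ : ∃ S, S = M / W := ⟨_, rfl⟩
  have hSW : S * W ≤ M := by rw [hS]; exact Nat.div_mul_le_self M W
  have hSW2 : M < S * W + W := by
    have h1 := Nat.div_add_mod M W
    have h7 := Nat.mod_lt M hW0
    rw [← hS] at h1
    nlinarith
  have hS1 : 1 ≤ S := by
    rw [hS, Nat.le_div_iff_mul_le hW0]
    omega
  have hS0 : (0 : ℝ) < S := by exact_mod_cast hS1
  have hSr : (S : ℝ) ≤ (M : ℝ) / W := by
    rw [le_div_iff₀ hWr]
    exact_mod_cast hSW
  have hSr2 : (M : ℝ) / (2 * W) ≤ S := by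
    rw [div_le_iff₀ (by positivity)]
    have h1 : M ≤ S * (2 * W) := by nlinarith
    exact_mod_cast h1
  -- the sieving level
  obtain ⟨z, hz⟩ : ∃ z, z = ⌊(M : ℝ) ^ κ⌋₊ := ⟨_, rfl⟩
  have hz3 : 3 ≤ z := by
    rw [hz]
    apply Nat.le_floor
    exact_mod_cast g1
  have hzN : (M : ℝ) ^ κ < z + 1 := by rw [hz]; exact Nat.lt_floor_add_one _
  have hzN' : (z : ℝ) ≤ (M : ℝ) ^ κ := by rw [hz]; exact Nat.floor_le (by positivity)
  have hzle : z ≤ M := by
    have : (z : ℝ) ≤ M := by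
      calc (z : ℝ) ≤ (M : ℝ) ^ κ := hzN'
        _ ≤ (M : ℝ) ^ (1 : ℝ) := Real.rpow_le_rpow_of_exponent_le hM1.le hκ1
        _ = M := Real.rpow_one _
    exact_mod_cast this
  have hzE : ((z : ℝ) ^ (4 * B + 6)) ^ (3 * 2 ^ (k + 1)) ≤ (M : ℝ) ^ (1 / 2 : ℝ) := by
    rw [← pow_mul, ← hE]
    calc (z : ℝ) ^ E ≤ ((M : ℝ) ^ κ) ^ E := pow_le_pow_left₀ (by positivity) hzN' _
      _ = (M : ℝ) ^ (1 / 2 : ℝ) := by
          rw [← Real.rpow_natCast, ← Real.rpow_mul hM0.le]
          congr 1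
          rw [hκ]
          have : (0 : ℝ) < E := by exact_mod_cast hE0
          field_simp
  have hsmall : 2 * ((2 * C) ^ (2 ^ (k + 1)) * (2 * g) ^ 2) / w +
        4 * (k + 1) * ((z : ℝ) ^ (4 * B + 6)) ^ (3 * 2 ^ (k + 1)) / S ≤ (η / 6) ^ (2 ^ (k + 1)) := by
    rw [← hE1, ← hη']
    have h1 : 4 * ((k : ℝ) + 1) * ((z : ℝ) ^ (4 * B + 6)) ^ (3 * 2 ^ (k + 1)) / S ≤ η' / 2 := by
      rw [div_le_iff₀ hS0]
      have h3 : (M : ℝ) ^ (1 / 2 : ℝ) * (M : ℝ) ^ (1 / 2 : ℝ) = M := by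
        rw [← Real.rpow_add hM0]
        norm_num
      rw [div_le_iff₀ hη'0] at g3
      have h4 : (0 : ℝ) < (M : ℝ) ^ (1 / 2 : ℝ) := by positivity
      have h5 : 4 * ((k : ℝ) + 1) * (2 * W) * 2 * (M : ℝ) ^ (1 / 2 : ℝ) ≤ η' * M := by
        have := mul_le_mul_of_nonneg_right g3 h4.le
        calc _ ≤ (M : ℝ) ^ (1 / 2 : ℝ) * η' * (M : ℝ) ^ (1 / 2 : ℝ) := this
          _ = η' * ((M : ℝ) ^ (1 / 2 : ℝ) * (M : ℝ) ^ (1 / 2 : ℝ)) := by ring
          _ = _ := by rw [h3]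
      calc 4 * ((k : ℝ) + 1) * ((z : ℝ) ^ (4 * B + 6)) ^ (3 * 2 ^ (k + 1))
          ≤ 4 * ((k : ℝ) + 1) * (M : ℝ) ^ (1 / 2 : ℝ) :=
            mul_le_mul_of_nonneg_left hzE (by positivity)
        _ = (4 * ((k : ℝ) + 1) * (2 * W) * 2 * (M : ℝ) ^ (1 / 2 : ℝ)) / (2 * W * 2) := by
            field_simp
        _ ≤ (η' * M) / (2 * W * 2) := div_le_div_of_nonneg_right h5 (by positivity)
        _ = η' / 2 * (M / (2 * W)) := by
            field_simp
        _ ≤ η' / 2 * S := mul_le_mul_of_nonneg_left hSr2 (by positivity)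
    linarith
  -- the count
  have hWp : ∀ p : ℕ, p.Prime → w < p → ¬ p ∣ W := by
    intro p hp hpw h
    rw [hW, Nat.Prime.dvd_primorial_iff hp] at h
    omega
  have hmain := hcount (TS T a W) (TS_per hT a W) w z S (η / 6) (TS_fib hT hF a W hWp) hw1 hw2 (by omega) hS1 hw3
    (by rw [← hE1]; exact hw4) (by positivity) hsmall (fun i y => b i (sb a W y)) (by
      intro i x y hxy
      apply hb
      intro j hj
      unfold sb
      rw [hxy j hj])
  -- comparison of the sets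
  obtain ⟨X, hX⟩ : ∃ X : Finset (Fin (k + 1) → ℤ), X = (CY M b).filter (fun x => ∀ i, (W : ℤ) ∣ x i - a i) := ⟨_, rfl⟩
  have hXle : (X.card : ℝ) ≤ (CY S (fun i y => b i (sb a W y))).card + η / 2 * ((M : ℝ) / W) ^ (k + 1) := by
    obtain ⟨X1, hX1⟩ : ∃ X1 : Finset (Fin (k + 1) → ℤ), X1 = X.filter (fun x => ∀ i, x i ≤ ((S * W : ℕ) : ℤ)) := ⟨_, rfl⟩
    obtain ⟨X2, hX2⟩ : ∃ X2 : Finset (Fin (k + 1) → ℤ), X2 = X.filter (fun x => ¬ ∀ i, x i ≤ ((S * W : ℕ) : ℤ)) := ⟨_, rfl⟩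
    have hsplit : X.card = X1.card + X2.card := by
      rw [hX1, hX2, card_filter_add_card_filter_not]
    have h1 : X1.card ≤ (CY S (fun i y => b i (sb a W y))).card := by
      have hform : ∀ x ∈ X1, ∀ i, ∃ t : ℤ, x i = a i + W * (t - 1) ∧ 1 ≤ t ∧ t ≤ S := by
        intro x hx i
        rw [hX1, mem_filter, hX, mem_filter, mem_CY] at hx
        obtain ⟨⟨⟨h1, _⟩, h3⟩, h4⟩ := hx
        obtain ⟨t, ht⟩ := h3 i
        refine ⟨t + 1, by linarith, ?_, ?_⟩
        · have h5 := (h1 i).1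
          have h6 := (ha i).2
          by_contra hcon
          have h7 : t ≤ -1 := by omega
          have h8 : (W : ℤ) * t ≤ W * (-1) := mul_le_mul_of_nonneg_left h7 (by positivity)
          linarith
        · have h5 := h4 i
          have h6 := (ha i).1
          by_contra hcon
          have h7 : (S : ℤ) ≤ t := by omega
          have h8 : (W : ℤ) * S ≤ W * t := mul_le_mul_of_nonneg_left h7 (by positivity)
          have h9 : ((S * W : ℕ) : ℤ) = W * S := by push_cast; ring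
          linarith
      choose! f hf using hform
      apply card_le_card_of_injOn f
      · intro x hx
        rw [mem_coe] at hx
        have hfx := hf x hx
        rw [mem_coe, mem_CY]
        refine ⟨fun i => (hfx i).2, ?_⟩
        have e : sb a W (f x) = x := by
          funext i
          unfold sb
          exact (hfx i).1.symm
        simp only [e]
        rw [hX1, mem_filter, hX, mem_filter, mem_CY] at hx
        exact hx.1.1.2
      · intro x hx x' hx' h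
        rw [mem_coe] at hx hx'
        funext i
        rw [(hf x hx i).1, (hf x' hx' i).1, h]
    have h2 : (X2.card : ℝ) ≤ (k + 1) * W * (M : ℝ) ^ k := by
      have hsub : X2 ⊆ univ.biUnion (fun j : Fin (k + 1) =>
          Fintype.piFinset (fun i => if i = j then Ioc ((S * W : ℕ) : ℤ) M else Icc (1 : ℤ) M)) := by
        intro x hx
        rw [hX2, mem_filter, hX, mem_filter, mem_CY] at hx
        obtain ⟨⟨⟨h1, _⟩, _⟩, h4⟩ := hx
        push Not at h4
        obtain ⟨j, hj⟩ := h4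
        rw [mem_biUnion]
        refine ⟨j, mem_univ _, ?_⟩
        rw [Fintype.mem_piFinset]
        intro i
        split_ifs with hi
        · subst hi
          rw [mem_Ioc]
          exact ⟨hj, (h1 i).2⟩
        · rw [mem_Icc]
          exact h1 i
      have hcard : ∀ j : Fin (k + 1), (Fintype.piFinset (fun i : Fin (k + 1) =>
          if i = j then Ioc ((S * W : ℕ) : ℤ) M else Icc (1 : ℤ) M)).card ≤ W * M ^ k := by
        intro j
        rw [Fintype.card_piFinset, ← mul_prod_erase univ _ (mem_univ j), if_pos rfl]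
        have h1 : ∏ x ∈ univ.erase j, (if x = j then Ioc ((S * W : ℕ) : ℤ) M else Icc (1 : ℤ) M).card = M ^ k := by
          have : ∀ x ∈ univ.erase j, (if x = j then Ioc ((S * W : ℕ) : ℤ) M else Icc (1 : ℤ) M).card = M := by
            intro x hx
            rw [if_neg (ne_of_mem_erase hx), Int.card_Icc]
            omega
          rw [prod_congr rfl this, prod_const, card_erase_of_mem (mem_univ j), card_univ, Fintype.card_fin]
          rfl
        rw [h1, Int.card_Ioc]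
        apply Nat.mul_le_mul_right
        omega
      calc (X2.card : ℝ) ≤ ((univ.biUnion (fun j : Fin (k + 1) =>
          Fintype.piFinset (fun i => if i = j then Ioc ((S * W : ℕ) : ℤ) M else Icc (1 : ℤ) M))).card : ℝ) := by
            exact_mod_cast card_le_card hsub
        _ ≤ ∑ j : Fin (k + 1), ((Fintype.piFinset (fun i : Fin (k + 1) =>
          if i = j then Ioc ((S * W : ℕ) : ℤ) M else Icc (1 : ℤ) M)).card : ℝ) := by
            exact_mod_cast card_biUnion_le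
        _ ≤ ∑ _j : Fin (k + 1), ((W : ℝ) * (M : ℝ) ^ k) := by
            apply sum_le_sum
            intro j _
            exact_mod_cast hcard j
        _ = _ := by
            rw [sum_const, card_univ, Fintype.card_fin, nsmul_eq_mul]
            push_cast
            ring
    have h3 : (k + 1) * W * (M : ℝ) ^ k ≤ η / 2 * ((M : ℝ) / W) ^ (k + 1) := by
      rw [div_le_iff₀ hη] at g6
      have h4 : 2 * ((k : ℝ) + 1) * (W : ℝ) ^ (k + 2) * (M : ℝ) ^ k ≤ (M : ℝ) * η * (M : ℝ) ^ k :=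
        mul_le_mul_of_nonneg_right g6 (by positivity)
      rw [div_pow, ← mul_div_assoc, le_div_iff₀ (by positivity)]
      calc ((k : ℝ) + 1) * W * (M : ℝ) ^ k * (W : ℝ) ^ (k + 1) = (2 * ((k : ℝ) + 1) * (W : ℝ) ^ (k + 2) * (M : ℝ) ^ k) / 2 := by
            ring
        _ ≤ ((M : ℝ) * η * (M : ℝ) ^ k) / 2 := div_le_div_of_nonneg_right h4 (by norm_num)
        _ = _ := by ring
    rw [hsplit]
    push_cast
    have h1' : (X1.card : ℝ) ≤ (CY S (fun i y => b i (sb a W y))).card := by exact_mod_cast h1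
    linarith
  have hY : (((CY S (fun i y => b i (sb a W y))).filter (fun y => ∀ p : ℕ, p.Prime → w < p → p ≤ z →
      ¬ TS T a W p y)).card : ℝ) ≤ (((CY M b).filter (fun x => (∀ i, (W : ℤ) ∣ x i - a i) ∧
        ∀ p : ℕ, p.Prime → (p : ℝ) ≤ (M : ℝ) ^ κ → ¬ T p x)).card : ℝ) := by
    apply Nat.cast_le.2
    apply card_le_card_of_injOn (sb a W)
    · intro y hy
      rw [mem_coe, mem_filter, mem_CY] at hy
      obtain ⟨⟨h1, h2⟩, h3⟩ := hy
      rw [mem_coe, mem_filter, mem_CY]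
      have hdvd : ∀ i, (W : ℤ) ∣ sb a W y i - a i := by
        intro i
        have : sb a W y i - a i = W * (y i - 1) := by
          unfold sb
          ring
        rw [this]
        exact Dvd.intro _ rfl
      refine ⟨⟨fun i => ?_, h2⟩, hdvd, ?_⟩
      · unfold sb
        have h4 := ha i
        have h5 := h1 i
        have h6 : (0 : ℤ) ≤ W * (y i - 1) := mul_nonneg (by positivity) (by linarith)
        have h7 : (W : ℤ) * (y i - 1) ≤ W * (S - 1) := mul_le_mul_of_nonneg_left (by linarith) (by positivity)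
        have h8 : ((S * W : ℕ) : ℤ) ≤ M := by exact_mod_cast hSW
        push_cast at h8
        constructor
        · linarith [h4.1]
        · have h9 : (W : ℤ) * (S - 1) = S * W - W := by ring
          linarith [h4.2]
      · intro p hp hpN hd
        have hpz : p ≤ z := by
          have : (p : ℝ) < z + 1 := lt_of_le_of_lt hpN hzN
          have : p < z + 1 := by exact_mod_cast this
          omega
        rcases le_or_gt p w with hpw | hpw
        · apply h0 p hp hpw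
          refine (hT p _ _ ?_).1 hd
          intro i
          refine dvd_trans ?_ (hdvd i)
          rw [Int.natCast_dvd_natCast, hW]
          exact (Nat.Prime.dvd_primorial_iff hp).2 hpw
        · exact h3 p hp hpw hpz hd
    · intro y _ y' _ h
      funext i
      have h1 := congrFun h i
      unfold sb at h1
      have h2 : (W : ℤ) * (y i - 1) = W * (y' i - 1) := by linarith
      have h3 := mul_left_cancel₀ (by exact_mod_cast hW0.ne') h2
      linarith
  have hV := hVG w z M (by omega) hw2 hzle g5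
  have hVG0 := VG_nonneg g w z hw2
  rw [← hX]
  rcases le_or_gt ((X.card : ℝ) - η * ((M : ℝ) / W) ^ (k + 1)) 0 with hneg | hpos
  · have : c0 / 2 / Real.log M ^ g * ((X.card : ℝ) - η * ((M : ℝ) / W) ^ (k + 1)) ≤ 0 :=
      mul_nonpos_of_nonneg_of_nonpos (by positivity) hneg
    exact this.trans (Nat.cast_nonneg _)
  · refine le_trans ?_ hY
    refine le_trans ?_ hmain
    have h1 : (S : ℝ) ^ (k + 1) ≤ ((M : ℝ) / W) ^ (k + 1) := pow_le_pow_left₀ hS0.le hSr _
    calc c0 / 2 / Real.log M ^ g * ((X.card : ℝ) - η * ((M : ℝ) / W) ^ (k + 1))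
        = (c0 / Real.log M ^ g) / 2 * ((X.card : ℝ) - η * ((M : ℝ) / W) ^ (k + 1)) := by ring
      _ ≤ VG g w z / 2 * ((X.card : ℝ) - η * ((M : ℝ) / W) ^ (k + 1)) := by
          apply mul_le_mul_of_nonneg_right _ hpos.le
          linarith
      _ ≤ VG g w z / 2 * (((CY S (fun i y => b i (sb a W y))).card : ℝ) - 3 * (η / 6) * (S : ℝ) ^ (k + 1)) := by
          apply mul_le_mul_of_nonneg_left _ (by positivity)
          have h2 := mul_le_mul_of_nonneg_left h1 (show (0 : ℝ) ≤ η / 2 by positivity)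
          linarith

end Pool.Agent.H18.HG
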