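import Pool.Agent.H18.HG.GCS

/-!
# Sifting the points of an intersection of cylinder sets (helper18)
-/

set_option autoImplicit false
set_option linter.unusedSectionVars false
set_option linter.deprecated false

namespace Pool.Agent.H18.HG

open Finset
open Pool.Agent.H14.SK (Pr)
open Pool.Agent.H14.MS (Per Bx vec Av mem_Bx card_Bx Av_add Av_const Av_smul Av_sum abs_Av_le)

variable {s : ℕ}

/-- the condition at `p` depends on the residue classes modulo `p` -/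
def PerT (T : ℕ → (Fin s → ℤ) → Prop) : Prop :=
  ∀ (p : ℕ) (x y : Fin s → ℤ), (∀ i, (p : ℤ) ∣ x i - y i) → (T p x ↔ T p y)

open Classical in
/-- on every line parallel to a coordinate axis, the condition at a prime `p > w` holds for at most `g`
residue classes modulo `p` -/
def Fib (T : ℕ → (Fin s → ℤ) → Prop) (g w : ℕ) : Prop :=
  ∀ p : ℕ, p.Prime → w < p → ∀ (i : Fin s) (x : Fin s → ℤ),
    ((range p).filter (fun t : ℕ => T p (x + Pi.single i (t : ℤ)))).card ≤ g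

open Classical in
/-- the indicator function of the condition -/
noncomputable def ind (T : ℕ → (Fin s → ℤ) → Prop) (p : ℕ) (x : Fin s → ℤ) : ℝ := if T p x then 1 else 0

lemma ind_nonneg (T : ℕ → (Fin s → ℤ) → Prop) (p : ℕ) (x : Fin s → ℤ) : 0 ≤ ind T p x := by
  unfold ind; split_ifs <;> norm_num

lemma ind_le (T : ℕ → (Fin s → ℤ) → Prop) (p : ℕ) (x : Fin s → ℤ) : ind T p x ≤ 1 := by
  unfold ind; split_ifs <;> norm_num

/-- the density of the condition -/
noncomputable def dn (T : ℕ → (Fin s → ℤ) → Prop) (p : ℕ) : ℝ := Av p (ind T p)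

lemma Av_nonneg {J : Type} [Fintype J] [DecidableEq J] (Q : ℕ) (Φ : (J → ℤ) → ℝ) (h : ∀ z, 0 ≤ Φ z) :
    0 ≤ Av Q Φ := by
  unfold Av
  exact div_nonneg (sum_nonneg fun _ _ => h _) (by positivity)

lemma Av_mono {J : Type} [Fintype J] [DecidableEq J] (Q : ℕ) (Φ Ψ : (J → ℤ) → ℝ) (h : ∀ z, Φ z ≤ Ψ z) :
    Av Q Φ ≤ Av Q Ψ := by
  unfold Av
  exact div_le_div_of_nonneg_right (sum_le_sum fun _ _ => h _) (by positivity)

lemma dn_nonneg (T : ℕ → (Fin s → ℤ) → Prop) (p : ℕ) : 0 ≤ dn T p := Av_nonneg _ _ (ind_nonneg T p)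

lemma dn_le_one (T : ℕ → (Fin s → ℤ) → Prop) (p : ℕ) (hp : 0 < p) : dn T p ≤ 1 := by
  have h := Av_mono p (ind T p) (fun _ => (1 : ℝ)) (ind_le T p)
  rwa [Av_const p hp] at h

/-- averages over lines -/
lemma Av_line {J : Type} [Fintype J] [DecidableEq J] (Q : ℕ) (hQ : 0 < Q) (Φ : (J → ℤ) → ℝ) (h : Per Q Φ)
    (j : J) : Av Q Φ = Av Q (fun z => (∑ c ∈ range Q, Φ (z + Pi.single j (c : ℤ))) / Q) := by
  have hQ0 : (0 : ℝ) < Q := by exact_mod_cast hQ
  have h1 : Av Q (fun z => ∑ c ∈ range Q, Φ (z + Pi.single j (c : ℤ))) = Q * Av Q Φ := by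
    have h3 := Av_sum Q (range Q) (fun (c : ℕ) (z : J → ℤ) => Φ (z + (Pi.single j (c : ℤ) : J → ℤ)))
    rw [h3]
    rw [sum_congr rfl (fun (c : ℕ) _ => Av_add Q hQ Φ h (Pi.single j (c : ℤ) : J → ℤ)), sum_const, card_range,
      nsmul_eq_mul]
  have h2 : (fun z : J → ℤ => (∑ c ∈ range Q, Φ (z + (Pi.single j (c : ℤ) : J → ℤ))) / (Q : ℝ)) =
      fun z => (1 / (Q : ℝ)) * ∑ c ∈ range Q, Φ (z + (Pi.single j (c : ℤ) : J → ℤ)) := by
    funext z
    ring
  rw [h2, Av_smul, h1]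
  field_simp

lemma per_ind {T : ℕ → (Fin s → ℤ) → Prop} (hT : PerT T) (p : ℕ) : Per p (ind T p) := by
  classical
  intro x y h
  unfold ind
  exact if_congr (hT p x y h) rfl rfl

lemma line_le {T : ℕ → (Fin s → ℤ) → Prop} {g w : ℕ} (hF : Fib T g w) (p : ℕ) (hp : p.Prime) (hw : w < p)
    (i : Fin s) (x : Fin s → ℤ) : (∑ c ∈ range p, ind T p (x + Pi.single i (c : ℤ))) / p ≤ (g : ℝ) / p := by
  classical
  have hp0 : (0 : ℝ) < p := by exact_mod_cast hp.pos
  apply div_le_div_of_nonneg_right _ hp0.le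
  have h := hF p hp hw i x
  unfold ind
  rw [← sum_filter, sum_const, nsmul_eq_mul, mul_one]
  refine le_trans (le_of_eq ?_) (Nat.cast_le.2 h)
  congr 2

lemma dn_le {k : ℕ} {T : ℕ → (Fin (k + 1) → ℤ) → Prop} (hT : PerT T) {g w : ℕ} (hF : Fib T g w) (p : ℕ)
    (hp : p.Prime) (hw : w < p) : dn T p ≤ (g : ℝ) / p := by
  unfold dn
  rw [Av_line p hp.pos _ (per_ind hT p) 0]
  refine (Av_mono _ _ _ (fun x => line_le hF p hp hw 0 x)).trans ?_
  rw [Av_const p hp.pos]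

lemma pair_le {k : ℕ} {T : ℕ → (Fin (k + 1) → ℤ) → Prop} (hT : PerT T) {g w : ℕ} (hF : Fib T g w) (p : ℕ)
    (hp : p.Prime) (hw : w < p) (ω ω' : Fin (k + 1) → Bool) (hne : ω ≠ ω') :
    Av p (fun z : Fin (k + 1) × Bool → ℤ => ind T p (vt ω z) * ind T p (vt ω' z)) ≤ (g : ℝ) ^ 2 / (p : ℝ) ^ 2 := by
  have hp0 : (0 : ℝ) < p := by exact_mod_cast hp.pos
  obtain ⟨i, hi⟩ := Function.ne_iff.1 hne
  have hper : Per p (fun z : Fin (k + 1) × Bool → ℤ => ind T p (vt ω z) * ind T p (vt ω' z)) :=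
    (per_vt (per_ind hT p) ω).mul (per_vt (per_ind hT p) ω')
  rw [Av_line p hp.pos _ hper (i, ω i)]
  have e1 : ∀ (z : Fin (k + 1) × Bool → ℤ) (c : ℤ), vt ω (z + Pi.single (i, ω i) c) = vt ω z + Pi.single i c := by
    intro z c
    funext j
    unfold vt
    simp only [Pi.add_apply]
    congr 1
    by_cases hj : j = i
    · subst hj
      rw [Pi.single_eq_same, Pi.single_eq_same]
    · rw [Pi.single_eq_of_ne hj, Pi.single_eq_of_ne]
      intro h
      exact hj (congrArg Prod.fst h)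
  have e2 : ∀ (z : Fin (k + 1) × Bool → ℤ) (c : ℤ), vt ω' (z + Pi.single (i, ω i) c) = vt ω' z := by
    intro z c
    funext j
    unfold vt
    simp only [Pi.add_apply]
    rw [Pi.single_eq_of_ne, add_zero]
    intro h
    have h1 : j = i := congrArg Prod.fst h
    have h2 : ω' j = ω i := congrArg Prod.snd h
    rw [h1] at h2
    exact hi h2.symm
  have h1 := Av_mono p (fun z : Fin (k + 1) × Bool → ℤ => (∑ c ∈ range p,
      ind T p (vt ω (z + Pi.single (i, ω i) (c : ℤ))) * ind T p (vt ω' (z + Pi.single (i, ω i) (c : ℤ)))) / p)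
    (fun z => ((g : ℝ) / p) * ind T p (vt ω' z)) (by
      intro z
      simp only [e1, e2]
      rw [← sum_mul, mul_div_right_comm]
      exact mul_le_mul_of_nonneg_right (line_le hF p hp hw i (vt ω z)) (ind_nonneg _ _ _))
  refine h1.trans ?_
  rw [Av_smul, Av_vt p hp.pos (ind T p) ω']
  have h2 := dn_le hT hF p hp hw
  unfold dn at h2
  calc (g : ℝ) / p * Av p (ind T p) ≤ (g : ℝ) / p * ((g : ℝ) / p) := mul_le_mul_of_nonneg_left h2 (by positivity)
    _ = _ := by rw [← sq, div_pow]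

/-- the balanced functions -/
noncomputable def YT (T : ℕ → (Fin s → ℤ) → Prop) (p : ℕ) (x : Fin s → ℤ) : ℝ := ind T p x - dn T p

lemma Av_addf {J : Type} [Fintype J] [DecidableEq J] (Q : ℕ) (Φ Ψ : (J → ℤ) → ℝ) :
    Av Q (fun z => Φ z + Ψ z) = Av Q Φ + Av Q Ψ := by
  unfold Av
  rw [sum_add_distrib, add_div]

lemma bal_YT {k : ℕ} {T : ℕ → (Fin (k + 1) → ℤ) → Prop} (hT : PerT T) {g w : ℕ} (hF : Fib T g w)
    (P : Finset ℕ) (hP : ∀ p ∈ P, p.Prime ∧ w < p) : BalV P (2 * g) (YT T) := by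
  refine ⟨fun p hp => (hP p hp).1, ?_, ?_, ?_, ?_⟩
  · intro p _ x y h
    unfold YT
    rw [per_ind hT p x y h]
  · intro p hp x
    have h1 := dn_nonneg T p
    have h2 := dn_le_one T p (hP p hp).1.pos
    have h3 := ind_nonneg T p x
    have h4 := ind_le T p x
    unfold YT
    rw [abs_le]
    constructor <;> linarith
  · intro p hp
    have e : YT T p = fun x => ind T p x + (fun _ => - dn T p) x := by
      funext x
      unfold YT
      ring
    rw [e, Av_addf, Av_const p (hP p hp).1.pos]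
    unfold dn
    ring
  · intro p hp ω ω' hne
    obtain ⟨hpp, hpw⟩ := hP p hp
    have hp0 : (0 : ℝ) < p := by exact_mod_cast hpp.pos
    have hd0 := dn_nonneg T p
    have hd1 := dn_le hT hF p hpp hpw
    have hab : ∀ x, |YT T p x| ≤ ind T p x + dn T p := by
      intro x
      have h3 := ind_nonneg T p x
      unfold YT
      rw [abs_le]
      constructor <;> linarith
    have h1 := Av_mono p (fun z : Fin (k + 1) × Bool → ℤ => |YT T p (vt ω z)| * |YT T p (vt ω' z)|)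
      (fun z => (ind T p (vt ω z) * ind T p (vt ω' z) + dn T p * ind T p (vt ω z)) +
        (dn T p * ind T p (vt ω' z) + dn T p ^ 2)) (by
        intro z
        have h2 := hab (vt ω z)
        have h3 := hab (vt ω' z)
        have h4 := ind_nonneg T p (vt ω z)
        calc |YT T p (vt ω z)| * |YT T p (vt ω' z)|
            ≤ (ind T p (vt ω z) + dn T p) * (ind T p (vt ω' z) + dn T p) :=
              mul_le_mul h2 h3 (abs_nonneg _) (by linarith)
          _ = _ := by ring)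
    refine h1.trans ?_
    rw [Av_addf p (fun z : Fin (k + 1) × Bool → ℤ => ind T p (vt ω z) * ind T p (vt ω' z) + dn T p * ind T p (vt ω z))
      (fun z => dn T p * ind T p (vt ω' z) + dn T p ^ 2),
      Av_addf p (fun z : Fin (k + 1) × Bool → ℤ => ind T p (vt ω z) * ind T p (vt ω' z)) (fun z => dn T p * ind T p (vt ω z)),
      Av_addf p (fun z : Fin (k + 1) × Bool → ℤ => dn T p * ind T p (vt ω' z)) (fun _ => dn T p ^ 2),
      Av_smul, Av_smul, Av_const p hpp.pos, Av_vt p hpp.pos (ind T p) ω, Av_vt p hpp.pos (ind T p) ω']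
    have h2 := pair_le hT hF p hpp hpw ω ω' hne
    have h3 : Av p (ind T p) = dn T p := rfl
    rw [h3]
    have h4 : dn T p * dn T p ≤ (g : ℝ) ^ 2 / (p : ℝ) ^ 2 := by
      rw [← div_pow, ← sq]
      exact pow_le_pow_left₀ hd0 hd1 2
    have h5 : (2 * (g : ℝ)) ^ 2 / (p : ℝ) ^ 2 = 4 * ((g : ℝ) ^ 2 / (p : ℝ) ^ 2) := by ring
    rw [h5]
    nlinarith

/-- the sifting product -/
noncomputable def VG (g w z : ℕ) : ℝ := ∏ p ∈ (Ioc w z).filter Nat.Prime, (1 - (g : ℝ) / p)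

lemma VG_nonneg (g w z : ℕ) (h : 2 * g ≤ w) : 0 ≤ VG g w z := by
  unfold VG
  apply prod_nonneg
  intro p hp
  rw [mem_filter, mem_Ioc] at hp
  have hp0 : (0 : ℝ) < p := by exact_mod_cast hp.2.pos
  have : (g : ℝ) / p ≤ 1 := by
    rw [div_le_one hp0]
    exact_mod_cast (by omega : g ≤ p)
  linarith

open Classical in
/-- the points of the box in the intersection of the cylinder sets -/
noncomputable def CY (M : ℕ) (b : Fin s → (Fin s → ℤ) → Prop) : Finset (Fin s → ℤ) :=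
  (PX (Icc (1 : ℤ) M) s).filter (fun x => ∀ i, b i x)

open Classical in
lemma mem_CY {M : ℕ} {b : Fin s → (Fin s → ℤ) → Prop} {x : Fin s → ℤ} :
    x ∈ CY M b ↔ (∀ i, 1 ≤ x i ∧ x i ≤ M) ∧ ∀ i, b i x := by
  unfold CY
  rw [mem_filter, mem_PX]
  simp only [mem_Icc]

/-- `b i` does not depend on the variable `i` -/
def Cyl (b : Fin s → (Fin s → ℤ) → Prop) : Prop :=
  ∀ (i : Fin s) (x y : Fin s → ℤ), (∀ j, j ≠ i → x j = y j) → (b i x ↔ b i y)

open Classical in
/-- **The count.** -/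
theorem countV (k g : ℕ) : ∃ (B : ℕ) (C : ℝ), 1 ≤ C ∧ ∀ (T : ℕ → (Fin (k + 1) → ℤ) → Prop), PerT T →
    ∀ (w z M : ℕ) (η : ℝ), Fib T g w → 3 ≤ w → 2 * g ≤ w → 1 ≤ z → 1 ≤ M → C ≤ w →
      (2 * C) ^ (2 ^ (k + 1)) * (2 * g) ^ 2 ≤ w → 0 ≤ η →
      2 * ((2 * C) ^ (2 ^ (k + 1)) * (2 * g) ^ 2) / w +
        4 * (k + 1) * ((z : ℝ) ^ (4 * B + 6)) ^ (3 * 2 ^ (k + 1)) / M ≤ η ^ (2 ^ (k + 1)) →
      ∀ b : Fin (k + 1) → (Fin (k + 1) → ℤ) → Prop, Cyl b →
      VG g w z / 2 * (((CY M b).card : ℝ) - 3 * η * (M : ℝ) ^ (k + 1)) ≤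
      (((CY M b).filter (fun x => ∀ p : ℕ, p.Prime → w < p → p ≤ z → ¬ T p x)).card : ℝ) := by
  obtain ⟨B, C, hC1, hS⟩ := sieve_abs g
  refine ⟨B, C, hC1, ?_⟩
  intro T hT w z M η hF hw hgw hz hM hCw hEw hη hsmall b hb
  obtain ⟨c, c0, c1, c2, c3, c4⟩ := hS w z hw hgw hz (fun p => if p.Prime ∧ w < p then dn T p else 0) (by
    intro p
    show 0 ≤ if p.Prime ∧ w < p then dn T p else 0
    split_ifs
    · exact dn_nonneg T p
    · exact le_rfl) (by
    intro p hp hpw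
    show (if p.Prime ∧ w < p then dn T p else 0) ≤ _
    rw [if_pos ⟨hp, hpw⟩, mul_one_div]
    exact dn_le hT hF p hp hpw)
  obtain ⟨P, hP⟩ : ∃ P, P = (Ioc w z).filter Nat.Prime := ⟨_, rfl⟩
  rw [← hP] at c1 c2 c3 c4
  have hPm : ∀ p ∈ P, p.Prime ∧ w < p := fun p hp => by
    rw [hP, mem_filter, mem_Ioc] at hp
    exact ⟨hp.2, hp.1.1⟩
  have hbal := bal_YT hT hF P hPm
  have hMr : (0 : ℝ) < M := by exact_mod_cast hM
  obtain ⟨𝒬, h𝒬⟩ : ∃ 𝒬, 𝒬 = P.powerset.filter (fun q => q.Nonempty ∧ c q ≠ 0) := ⟨_, rfl⟩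
  have hmem𝒬 : ∀ q ∈ 𝒬, (q ⊆ P ∧ q.Nonempty) ∧ Pr q ≤ z ^ (4 * B + 6) := by
    intro q hq
    rw [h𝒬, mem_filter, mem_powerset] at hq
    exact ⟨⟨hq.1, hq.2.1⟩, c3 q hq.1 hq.2.2⟩
  obtain ⟨G, hG⟩ : ∃ G : (Fin (k + 1) → ℤ) → ℝ, G = fun x => ∑ q ∈ 𝒬, c q * ∏ p ∈ q, YT T p x := ⟨_, rfl⟩
  -- the expansion
  have hν : ∀ x : Fin (k + 1) → ℤ, c ∅ + G x ≤ if (∀ p : ℕ, p.Prime → w < p → p ≤ z → ¬ T p x) then 1 else 0 := by
    intro x
    refine le_trans (le_of_eq ?_) (c4 (fun p => T p x))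
    rw [hG, h𝒬]
    simp only
    have hY : ∀ q ∈ P.powerset, ∏ p ∈ q, ((if T p x then (1 : ℝ) else 0) -
        (if p.Prime ∧ w < p then dn T p else 0)) = ∏ p ∈ q, YT T p x := by
      intro q hq
      rw [mem_powerset] at hq
      apply prod_congr rfl
      intro p hp
      rw [if_pos (hPm p (hq hp))]
      rfl
    have hY2 : ∑ q ∈ P.powerset, c q * ∏ p ∈ q, ((if T p x then (1 : ℝ) else 0) -
        (if p.Prime ∧ w < p then dn T p else 0)) = ∑ q ∈ P.powerset, c q * ∏ p ∈ q, YT T p x :=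
      sum_congr rfl fun q hq => by rw [hY q hq]
    rw [hY2, ← sum_filter_add_sum_filter_not P.powerset (fun q => q.Nonempty ∧ c q ≠ 0), add_comm]
    congr 1
    symm
    rw [sum_eq_single ∅]
    · simp
    · intro q hq hne
      rw [mem_filter] at hq
      have h1 : q.Nonempty := nonempty_iff_ne_empty.2 hne
      have h2 : c q = 0 := by
        by_contra hc
        exact hq.2 ⟨h1, hc⟩
      rw [h2, zero_mul]
    · intro h
      exfalso
      apply h
      rw [mem_filter]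
      exact ⟨empty_mem_powerset P, fun h' => by simp at h'⟩
  -- the correlation
  have hcorr := corrB hbal w (z ^ (4 * B + 6)) M (by omega) hM (fun p hp => (hPm p hp).2) 𝒬 hmem𝒬 c (3 * c ∅) C
    (by positivity) hC1 hCw (fun q hq => c2 q (hmem𝒬 q hq).1.1) hEw
  have hgcs := gcsB (Icc (1 : ℤ) M) k G (fun i x => if b i x then 1 else 0) (by
    intro i x
    show |if b i x then (1 : ℝ) else 0| ≤ 1
    split_ifs <;> simp) (by
    intro i x y hxy
    show (if b i x then (1 : ℝ) else 0) = if b i y then 1 else 0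
    exact if_congr (hb i x y hxy) rfl rfl)
  have hcI : (((Icc (1 : ℤ) M).card : ℕ) : ℝ) = M := by
    rw [Int.card_Icc]
    congr 1
    omega
  rw [hcI, BN_eq] at hgcs
  obtain ⟨U, hU⟩ : ∃ U, U = ∑ x ∈ PX (Icc (1 : ℤ) M) (k + 1), G x * ∏ i, (if b i x then (1 : ℝ) else 0) := ⟨_, rfl⟩
  rw [← hU] at hgcs
  have hUle : |U| ≤ 3 * c ∅ * η * (M : ℝ) ^ (k + 1) := by
    have h1 : |U| ^ (2 ^ (k + 1)) ≤ (3 * c ∅ * η * (M : ℝ) ^ (k + 1)) ^ (2 ^ (k + 1)) := by
      have h2 : ∑ z ∈ KB (k + 1) M, ∏ ω : Fin (k + 1) → Bool, G (vt ω z) ≤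
          (3 * c ∅) ^ (2 ^ (k + 1)) * (M ^ (2 * (k + 1)) * η ^ (2 ^ (k + 1))) := by
        refine (le_abs_self _).trans ?_
        rw [hG]
        refine hcorr.trans ?_
        apply mul_le_mul_of_nonneg_left _ (by positivity)
        apply mul_le_mul_of_nonneg_left _ (by positivity)
        refine le_trans (le_of_eq ?_) hsmall
        push_cast
        ring
      have h3 : |U| ^ (2 ^ (k + 1)) * (M : ℝ) ^ (2 * (k + 1)) ≤
          (3 * c ∅ * η * (M : ℝ) ^ (k + 1)) ^ (2 ^ (k + 1)) * (M : ℝ) ^ (2 * (k + 1)) := by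
        refine hgcs.trans ?_
        calc (M : ℝ) ^ ((k + 1) * 2 ^ (k + 1)) * ∑ z ∈ KB (k + 1) M, ∏ ω : Fin (k + 1) → Bool, G (vt ω z)
            ≤ (M : ℝ) ^ ((k + 1) * 2 ^ (k + 1)) * ((3 * c ∅) ^ (2 ^ (k + 1)) * (M ^ (2 * (k + 1)) * η ^ (2 ^ (k + 1)))) :=
              mul_le_mul_of_nonneg_left h2 (by positivity)
          _ = _ := by
              have e : (3 * c ∅ * η * (M : ℝ) ^ (k + 1)) ^ (2 ^ (k + 1)) =
                  (3 * c ∅) ^ (2 ^ (k + 1)) * η ^ (2 ^ (k + 1)) * (M : ℝ) ^ ((k + 1) * 2 ^ (k + 1)) := by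
                rw [mul_pow, mul_pow (3 * c ∅) η, ← pow_mul]
              rw [e]
              ring
      exact le_of_mul_le_mul_right h3 (by positivity)
    exact le_of_pow_le_pow_left₀ (by positivity) (by positivity) h1
  -- the sum
  have hsum1 : ∑ x ∈ CY M b, G x = U := by
    rw [hU]
    unfold CY
    rw [sum_filter]
    apply sum_congr rfl
    intro x _
    by_cases h : ∀ i, b i x
    · rw [if_pos h]
      have : ∏ i, (if b i x then (1 : ℝ) else 0) = 1 := prod_eq_one fun i _ => if_pos (h i)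
      rw [this, mul_one]
    · rw [if_neg h]
      push Not at h
      obtain ⟨i, hi⟩ := h
      rw [prod_eq_zero (mem_univ i) (if_neg hi), mul_zero]
  have hsum2 : c ∅ * (CY M b).card + U ≤
      (((CY M b).filter (fun x => ∀ p : ℕ, p.Prime → w < p → p ≤ z → ¬ T p x)).card : ℝ) := by
    calc c ∅ * (CY M b).card + U = ∑ x ∈ CY M b, (c ∅ + G x) := by
          rw [sum_add_distrib, sum_const, nsmul_eq_mul, hsum1]
          ring
      _ ≤ ∑ x ∈ CY M b, (if (∀ p : ℕ, p.Prime → w < p → p ≤ z → ¬ T p x) then (1 : ℝ) else 0) :=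
          sum_le_sum fun x _ => hν x
      _ = _ := by
          rw [← sum_filter, sum_const, nsmul_eq_mul, mul_one]
  have hV0 := VG_nonneg g w z hgw
  have hVc : VG g w z / 2 ≤ c ∅ := by
    refine le_trans ?_ c1
    apply div_le_div_of_nonneg_right _ (by norm_num)
    unfold VG
    rw [← hP]
    apply Finset.prod_le_prod
    · intro p hp
      have hp0 : (0 : ℝ) < p := by exact_mod_cast (hPm p hp).1.pos
      have : (g : ℝ) / p ≤ 1 := by
        rw [div_le_one hp0]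
        have := (hPm p hp).2
        exact_mod_cast (by omega : g ≤ p)
      linarith
    · intro p hp
      rw [if_pos (hPm p hp)]
      have := dn_le hT hF p (hPm p hp).1 (hPm p hp).2
      linarith
  rcases le_or_gt 0 (((CY M b).card : ℝ) - 3 * η * (M : ℝ) ^ (k + 1)) with hpos | hneg
  · calc VG g w z / 2 * (((CY M b).card : ℝ) - 3 * η * (M : ℝ) ^ (k + 1))
        ≤ c ∅ * (((CY M b).card : ℝ) - 3 * η * (M : ℝ) ^ (k + 1)) := mul_le_mul_of_nonneg_right hVc hpos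
      _ = c ∅ * (CY M b).card - 3 * c ∅ * η * (M : ℝ) ^ (k + 1) := by ring
      _ ≤ c ∅ * (CY M b).card + U := by
          have := (abs_le.1 hUle).1
          linarith
      _ ≤ _ := hsum2
  · have h1 : VG g w z / 2 * (((CY M b).card : ℝ) - 3 * η * (M : ℝ) ^ (k + 1)) ≤ 0 :=
      mul_nonpos_of_nonneg_of_nonpos (by positivity) hneg.le
    exact h1.trans (Nat.cast_nonneg _)

end Pool.Agent.H18.HG
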