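import Pool.Agent.H18.HG.Cls

/-!
# Linear forms at the points of an intersection of cylinder sets (helper18)
-/

set_option autoImplicit false
set_option linter.unusedSectionVars false
set_option linter.deprecated false

namespace Pool.Agent.H18.HG

open Finset

/-- the condition `τ p` depends on the residue class modulo `p` -/
def Per1 (τ : ℕ → ℤ → Prop) : Prop := ∀ (p : ℕ) (n m : ℤ), (p : ℤ) ∣ n - m → (τ p n ↔ τ p m)

open Classical in
/-- at most `e` residue classes modulo every prime, and no fixed prime divisor -/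
structure Sieve1 (e : ℕ) (τ : ℕ → ℤ → Prop) : Prop where
  per : Per1 τ
  le : ∀ p : ℕ, p.Prime → ((range p).filter (fun r : ℕ => τ p r)).card ≤ e
  adm : ∀ p : ℕ, p.Prime → ∃ n : ℤ, ¬ τ p n

variable {s t : ℕ}

/-- the linear form -/
def lin (c : Fin s → ℤ) (x : Fin s → ℤ) : ℤ := ∑ i, c i * x i

/-- the condition for several forms -/
def TF (τ : Fin t → ℕ → ℤ → Prop) (c : Fin t → Fin s → ℤ) (h : Fin t → ℤ) (p : ℕ) (x : Fin s → ℤ) : Prop :=
  ∃ j, τ j p (lin (c j) x + h j)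

lemma lin_add (c x y : Fin s → ℤ) : lin c (x + y) = lin c x + lin c y := by
  unfold lin
  rw [← sum_add_distrib]
  apply sum_congr rfl
  intro i _
  rw [Pi.add_apply]
  ring

lemma lin_single (c : Fin s → ℤ) (i : Fin s) (m : ℤ) : lin c (Pi.single i m) = c i * m := by
  unfold lin
  rw [sum_eq_single i]
  · rw [Pi.single_eq_same]
  · intro j _ hj
    rw [Pi.single_eq_of_ne hj, mul_zero]
  · intro h
    exact absurd (mem_univ i) h

lemma dvd_lin (p : ℤ) (c x y : Fin s → ℤ) (h : ∀ i, p ∣ x i - y i) : p ∣ lin c x - lin c y := by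
  unfold lin
  rw [← sum_sub_distrib]
  apply dvd_sum
  intro i _
  rw [← mul_sub]
  exact (h i).mul_left _

lemma TF_per {e : ℕ} {τ : Fin t → ℕ → ℤ → Prop} (hτ : ∀ j, Sieve1 e (τ j)) (c : Fin t → Fin s → ℤ)
    (h : Fin t → ℤ) : PerT (TF τ c h) := by
  intro p x y hxy
  unfold TF
  apply exists_congr
  intro j
  apply (hτ j).per
  have e1 : lin (c j) x + h j - (lin (c j) y + h j) = lin (c j) x - lin (c j) y := by ring
  rw [e1]
  exact dvd_lin _ _ _ _ hxy

open Classical in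
lemma line_count {e : ℕ} {τ : ℕ → ℤ → Prop} (hτ : Sieve1 e τ) (p : ℕ) (hp : p.Prime) (m d : ℤ)
    (hd : ¬ (p : ℤ) ∣ d) : ((range p).filter (fun r : ℕ => τ p (m + d * r))).card ≤ e := by
  refine le_trans ?_ (hτ.le p hp)
  have hp0 : (0 : ℤ) < p := by exact_mod_cast hp.pos
  apply card_le_card_of_injOn (fun r : ℕ => ((m + d * r) % p).toNat)
  · intro r hr
    simp only [coe_filter, Set.mem_setOf_eq, mem_range] at hr ⊢
    have h1 : 0 ≤ (m + d * r) % p := Int.emod_nonneg _ hp0.ne'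
    have h2 : (m + d * r) % p < p := Int.emod_lt_of_pos _ hp0
    refine ⟨by omega, ?_⟩
    refine (hτ.per p _ _ ?_).1 hr.2
    rw [Int.toNat_of_nonneg h1]
    exact Int.dvd_self_sub_emod
  · intro r hr r' hr' he
    simp only [coe_filter, Set.mem_setOf_eq, mem_range] at hr hr'
    have h1 : 0 ≤ (m + d * r) % p := Int.emod_nonneg _ hp0.ne'
    have h1' : 0 ≤ (m + d * r') % p := Int.emod_nonneg _ hp0.ne'
    have h2 : (m + d * r) % p = (m + d * r') % p := by
      have h3 := congrArg (fun n : ℕ => (n : ℤ)) he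
      simp only at h3
      rwa [Int.toNat_of_nonneg h1, Int.toNat_of_nonneg h1'] at h3
    have h3 : (p : ℤ) ∣ (m + d * r') - (m + d * r) := Int.ModEq.dvd h2
    have h4 : (p : ℤ) ∣ d * ((r' : ℤ) - r) := by
      have : (m + d * r') - (m + d * r) = d * ((r' : ℤ) - r) := by ring
      rwa [this] at h3
    have h5 : (p : ℤ) ∣ (r' : ℤ) - r := (Int.Prime.dvd_mul' hp h4).resolve_left hd
    have h6 := Int.eq_zero_of_abs_lt_dvd h5 (by
      rw [abs_lt]
      constructor <;> omega)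
    omega

lemma TF_fib {e : ℕ} {τ : Fin t → ℕ → ℤ → Prop} (hτ : ∀ j, Sieve1 e (τ j)) (c : Fin t → Fin s → ℤ)
    (h : Fin t → ℤ) (A w : ℕ) (hc : ∀ j i, c j i ≠ 0 ∧ |c j i| ≤ A) (hw : A ≤ w) : Fib (TF τ c h) (t * e) w := by
  classical
  intro p hp hpw i x
  have h1 : (range p).filter (fun r : ℕ => TF τ c h p (x + Pi.single i (r : ℤ))) ⊆
      univ.biUnion (fun j : Fin t => (range p).filter (fun r : ℕ => τ j p ((lin (c j) x + h j) + c j i * r))) := by
    intro r hr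
    rw [mem_filter] at hr
    obtain ⟨hr1, j, hj⟩ := hr
    rw [mem_biUnion]
    refine ⟨j, mem_univ _, ?_⟩
    rw [mem_filter]
    refine ⟨hr1, ?_⟩
    rw [lin_add, lin_single] at hj
    have e1 : lin (c j) x + h j + c j i * (r : ℤ) = lin (c j) x + c j i * (r : ℤ) + h j := by ring
    rw [e1]
    exact hj
  have h2 := (card_le_card h1).trans card_biUnion_le
  refine le_trans ?_ (h2.trans ?_)
  · exact le_of_eq (by congr)
  · have h3 : ∀ j : Fin t, ((range p).filter (fun r : ℕ => τ j p ((lin (c j) x + h j) + c j i * r))).card ≤ e := by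
      intro j
      have h3 : (w : ℤ) < p := by exact_mod_cast hpw
      have h4 : (A : ℤ) ≤ w := by exact_mod_cast hw
      have h5 : |c j i| < p := lt_of_le_of_lt (hc j i).2 (lt_of_le_of_lt h4 h3)
      exact line_count (hτ j) p hp _ _ (fun hd => (hc j i).1 (Int.eq_zero_of_abs_lt_dvd hd h5))
    refine (sum_le_sum fun j _ => h3 j).trans ?_
    rw [sum_const, card_univ, Fintype.card_fin, smul_eq_mul]

/-- a bounded shift without local obstruction -/
lemma shift_exists {e : ℕ} {τ : ℕ → ℤ → Prop} (hτ : Sieve1 e τ) (w : ℕ) (m : ℤ) :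
    ∃ h : ℕ, h < primorial w ∧ ∀ p : ℕ, p.Prime → p ≤ w → ¬ τ p (m + h) := by
  classical
  obtain ⟨q, hq⟩ : ∃ q, q = (range (w + 1)).filter Nat.Prime := ⟨_, rfl⟩
  have hqp : ∀ p ∈ q, p.Prime := by
    intro p hp
    rw [hq, mem_filter] at hp
    exact hp.2
  have h0 : ∀ p : ℕ, p.Prime → ∃ n : ℤ, ¬ τ p (m + n) := by
    intro p hp
    obtain ⟨n, hn⟩ := hτ.adm p hp
    exact ⟨n - m, by rwa [add_sub_cancel]⟩
  choose! ν hν using h0
  have hco : (q : Set ℕ).Pairwise (Function.onFun Nat.Coprime (fun p => p)) := by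
    intro a ha b hb hab
    exact (Nat.coprime_primes (hqp a ha) (hqp b hb)).2 hab
  obtain ⟨k, hk⟩ := Nat.chineseRemainderOfFinset (fun p => ((ν p) % (p : ℤ)).toNat)
    (fun p => p) q (fun p hp => (hqp p hp).pos.ne') hco
  refine ⟨k % primorial w, Nat.mod_lt _ (primorial_pos w), ?_⟩
  intro p hp hpw
  have hpq : p ∈ q := by
    rw [hq, mem_filter, mem_range]
    exact ⟨by omega, hp⟩
  have h1 := hk p hpq
  have hp0 : (0 : ℤ) < p := by exact_mod_cast hp.pos
  have h2 : k % primorial w ≡ k [MOD p] := by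
    have h3 : k % primorial w ≡ k [MOD primorial w] := Nat.mod_modEq _ _
    exact h3.of_dvd ((Nat.Prime.dvd_primorial_iff hp).2 hpw)
  have h4 := h2.trans h1
  have h5 : ((((ν p) % (p : ℤ)).toNat : ℕ) : ℤ) = ν p % p := Int.toNat_of_nonneg (Int.emod_nonneg _ hp0.ne')
  have h6 : (p : ℤ) ∣ ((((ν p) % (p : ℤ)).toNat : ℕ) : ℤ) - ((k % primorial w : ℕ) : ℤ) :=
    Nat.modEq_iff_dvd.1 h4
  rw [h5] at h6
  have h7 : (p : ℤ) ∣ ν p - ((k % primorial w : ℕ) : ℤ) := by
    have h8 : (p : ℤ) ∣ ν p - ν p % p := Int.dvd_self_sub_emod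
    have := dvd_add h8 h6
    rwa [sub_add_sub_cancel] at this
  intro h9
  refine hν p hp ((hτ.per p _ _ ?_).2 h9)
  have e1 : m + ν p - (m + ((k % primorial w : ℕ) : ℤ)) = ν p - ((k % primorial w : ℕ) : ℤ) := by ring
  rw [e1]
  exact h7

open Classical in
/-- **Linear forms at the points of dense intersections of cylinder sets.** -/
theorem forms_dense (k t e : ℕ) : ∃ κ : ℝ, 0 < κ ∧ ∀ (A : ℕ) (δ : ℝ), 0 < δ → ∃ (H : ℕ) (C : ℝ), 0 < C ∧
    ∃ M₀ : ℕ, ∀ M : ℕ, M₀ ≤ M → ∀ τ : Fin t → ℕ → ℤ → Prop, (∀ j, Sieve1 e (τ j)) →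
    ∀ c : Fin t → Fin (k + 1) → ℤ, (∀ j i, c j i ≠ 0 ∧ |c j i| ≤ A) →
    ∀ b : Fin (k + 1) → (Fin (k + 1) → ℤ) → Prop, Cyl b → δ * (M : ℝ) ^ (k + 1) ≤ (CY M b).card →
    ∃ h : Fin t → ℕ, (∀ j, h j ≤ H) ∧ C * (M : ℝ) ^ (k + 1) / Real.log M ^ (t * e) ≤
      (((CY M b).filter (fun x => ∀ j, ∀ p : ℕ, p.Prime → (p : ℝ) ≤ (M : ℝ) ^ κ →
        ¬ τ j p (lin (c j) x + h j))).card : ℝ) := by
  obtain ⟨κ, c0, hκ, hc0, hmain⟩ := class_count k (t * e)
  refine ⟨κ, hκ, ?_⟩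
  intro A δ hδ
  obtain ⟨w₀, hw₀⟩ := hmain (δ / 2) (by positivity)
  obtain ⟨w, hw⟩ : ∃ w, w = max w₀ A := ⟨_, rfl⟩
  obtain ⟨M₀, hM₀⟩ := hw₀ w (by rw [hw]; exact le_max_left _ _)
  obtain ⟨W, hW⟩ : ∃ W, W = primorial w := ⟨_, rfl⟩
  have hW0 : 0 < W := by rw [hW]; exact primorial_pos w
  have hWr : (0 : ℝ) < W := by exact_mod_cast hW0
  rw [← hW] at hM₀
  refine ⟨W, c0 * (δ / 2) / (W : ℝ) ^ (k + 1), by positivity, max M₀ 3, ?_⟩
  intro M hM τ hτ c hc b hb hE
  have hM3 : 3 ≤ M := (le_max_right _ _).trans hM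
  have hL0 : 0 < Real.log M := Real.log_pos (by exact_mod_cast (by omega : 1 < M))
  -- a popular class
  obtain ⟨K, hK⟩ : ∃ K : Finset (Fin (k + 1) → ℤ), K = Fintype.piFinset (fun _ => Icc (1 : ℤ) W) := ⟨_, rfl⟩
  have hKc : K.card = W ^ (k + 1) := by
    rw [hK, Fintype.card_piFinset]
    simp only [Int.card_Icc, prod_const, card_univ, Fintype.card_fin]
    congr 1
    omega
  have hWz : (0 : ℤ) < W := by exact_mod_cast hW0
  obtain ⟨f, hf⟩ : ∃ f : (Fin (k + 1) → ℤ) → (Fin (k + 1) → ℤ), f = fun (x : Fin (k + 1) → ℤ) (i : Fin (k + 1)) => (x i - 1) % W + 1 := ⟨_, rfl⟩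
  have hmaps : ∀ x ∈ CY M b, f x ∈ K := by
    intro x _
    rw [hK, Fintype.mem_piFinset]
    intro i
    rw [mem_Icc, hf]
    have h1 := Int.emod_nonneg (x i - 1) hWz.ne'
    have h2 := Int.emod_lt_of_pos (x i - 1) hWz
    simp only
    omega
  have hsum : ∑ a ∈ K, (((CY M b).filter (fun x => f x = a)).card : ℝ) = (CY M b).card := by
    rw [card_eq_sum_card_fiberwise hmaps]
    push_cast
    rfl
  obtain ⟨a, haK, ha⟩ : ∃ a ∈ K, δ * ((M : ℝ) / W) ^ (k + 1) ≤ ((CY M b).filter (fun x => f x = a)).card := by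
    by_contra hcon
    push Not at hcon
    have hKne : K.Nonempty := by
      rw [← card_pos, hKc]
      positivity
    have h1 := sum_lt_sum_of_nonempty hKne hcon
    rw [hsum, sum_const, hKc, nsmul_eq_mul] at h1
    push_cast at h1
    have h2 : (W : ℝ) ^ (k + 1) * (δ * ((M : ℝ) / W) ^ (k + 1)) = δ * (M : ℝ) ^ (k + 1) := by
      rw [div_pow]
      field_simp
    rw [h2] at h1
    linarith
  have haW : ∀ i, 1 ≤ a i ∧ a i ≤ W := by
    intro i
    rw [hK, Fintype.mem_piFinset] at haK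
    exact mem_Icc.1 (haK i)
  -- the shifts
  choose h hh1 hh2 using fun j => shift_exists (hτ j) w (lin (c j) a)
  refine ⟨h, fun j => by rw [hW]; exact (hh1 j).le, ?_⟩
  have hfa : ∀ x, f x = a → ∀ i, (W : ℤ) ∣ x i - a i := by
    intro x hx i
    have h1 := congrFun hx i
    rw [hf] at h1
    simp only at h1
    rw [← h1]
    have : x i - ((x i - 1) % W + 1) = (x i - 1) - (x i - 1) % W := by ring
    rw [this]
    exact Int.dvd_self_sub_emod
  have hcl := hM₀ M ((le_max_left _ _).trans hM) (TF τ c (fun j => (h j : ℤ))) (TF_per hτ c _)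
    (TF_fib hτ c _ A w hc (by rw [hw]; exact le_max_right _ _)) a haW (by
      rintro p hp hpw ⟨j, hj⟩
      exact hh2 j p hp hpw hj) b hb
  have hX : δ * ((M : ℝ) / W) ^ (k + 1) ≤ ((CY M b).filter (fun x => ∀ i, (W : ℤ) ∣ x i - a i)).card := by
    refine ha.trans (Nat.cast_le.2 (card_le_card ?_))
    intro x hx
    rw [mem_filter] at hx ⊢
    exact ⟨hx.1, hfa x hx.2⟩
  have h1 : c0 * (δ / 2) / (W : ℝ) ^ (k + 1) * (M : ℝ) ^ (k + 1) / Real.log M ^ (t * e) ≤
      c0 / Real.log M ^ (t * e) * ((((CY M b).filter (fun x => ∀ i, (W : ℤ) ∣ x i - a i)).card : ℝ) -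
        δ / 2 * ((M : ℝ) / W) ^ (k + 1)) := by
    calc c0 * (δ / 2) / (W : ℝ) ^ (k + 1) * (M : ℝ) ^ (k + 1) / Real.log M ^ (t * e) =
        c0 / Real.log M ^ (t * e) * (δ / 2 * ((M : ℝ) / W) ^ (k + 1)) := by
          rw [div_pow]
          ring
      _ ≤ _ := by
          apply mul_le_mul_of_nonneg_left _ (by positivity)
          linarith
  refine h1.trans (hcl.trans (Nat.cast_le.2 (card_le_card ?_)))
  intro x hx
  rw [mem_filter] at hx ⊢
  refine ⟨hx.1, ?_⟩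
  intro j p hp hpM hj
  exact hx.2.2 p hp hpM ⟨j, hj⟩

end Pool.Agent.H18.HG
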