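import Pool.Agent.H18.HG.Box

/-!
# The Cauchy-Schwarz inequality for weights that do not depend on one of the variables (helper18)
-/

set_option autoImplicit false
set_option linter.unusedSectionVars false
set_option linter.deprecated false

namespace Pool.Agent.H18.HG

open Finset

/-- the product set -/
def PX (I : Finset ℤ) (s : ℕ) : Finset (Fin s → ℤ) := Fintype.piFinset (fun _ => I)

lemma mem_PX {I : Finset ℤ} {s : ℕ} {x : Fin s → ℤ} : x ∈ PX I s ↔ ∀ i, x i ∈ I := by
  unfold PX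
  rw [Fintype.mem_piFinset]

lemma card_PX (I : Finset ℤ) (s : ℕ) : (PX I s).card = I.card ^ s := by
  unfold PX
  rw [Fintype.card_piFinset]
  simp

lemma sum_PX_succ (I : Finset ℤ) (s : ℕ) (f : (Fin (s + 1) → ℤ) → ℝ) :
    ∑ x ∈ PX I (s + 1), f x = ∑ a ∈ I, ∑ x ∈ PX I s, f (Fin.cons a x) := by
  rw [← sum_product']
  apply sum_nbij' (fun x => (x 0, Fin.tail x)) (fun y => Fin.cons y.1 y.2)
  · intro x hx
    rw [mem_PX] at hx
    rw [mem_product, mem_PX]
    exact ⟨hx 0, fun i => hx i.succ⟩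
  · rintro ⟨a, x⟩ h
    rw [mem_product, mem_PX] at h
    rw [mem_PX]
    intro i
    refine Fin.cases ?_ (fun j => ?_) i
    · exact h.1
    · exact h.2 j
  · intro x _
    exact Fin.cons_self_tail x
  · rintro ⟨a, x⟩ _
    simp
  · intro x _
    rw [Fin.cons_self_tail]

/-- the box norm to the power `2 ^ s`, not normalized -/
noncomputable def BN (I : Finset ℤ) : (s : ℕ) → ((Fin s → ℤ) → ℝ) → ℝ
  | 0, F => F Fin.elim0
  | s + 1, F => ∑ a ∈ I, ∑ b ∈ I, BN I s (fun x => F (Fin.cons a x) * F (Fin.cons b x))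

lemma prod_bool_succ (s : ℕ) (f : (Fin (s + 1) → Bool) → ℝ) :
    ∏ ω, f ω = ∏ ω : Fin s → Bool, (f (Fin.cons false ω) * f (Fin.cons true ω)) := by
  rw [← (Fin.consEquiv (fun _ : Fin (s + 1) => Bool)).prod_comp f, Fintype.prod_prod_type]
  rw [Fintype.prod_bool, ← prod_mul_distrib]
  apply prod_congr rfl
  intro ω _
  rw [mul_comm]
  rfl

/-- the box norm as a sum over the points of the box -/
lemma BN_eq (M : ℕ) (s : ℕ) (F : (Fin s → ℤ) → ℝ) :
    BN (Icc (1 : ℤ) M) s F = ∑ z ∈ KB s M, ∏ ω : Fin s → Bool, F (vt ω z) := by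
  induction s with
  | zero =>
    have h1 : KB 0 M = {fun j => Fin.elim0 j.1} := by
      ext z
      rw [mem_KB, mem_singleton]
      constructor
      · intro _
        funext j
        exact Fin.elim0 j.1
      · intro _ j
        exact Fin.elim0 j.1
    rw [h1, sum_singleton]
    show F Fin.elim0 = _
    rw [Fintype.prod_unique]
    congr 1
  | succ s ih =>
    show ∑ a ∈ Icc (1 : ℤ) M, ∑ b ∈ Icc (1 : ℤ) M, BN (Icc (1 : ℤ) M) s
      (fun x => F (Fin.cons a x) * F (Fin.cons b x)) = _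
    simp only [ih]
    rw [← sum_product', ← sum_product']
    symm
    apply sum_nbij' (fun z => ((z (0, false), z (0, true)), fun j : Fin s × Bool => z (j.1.succ, j.2)))
      (fun y j => (Fin.cons (if j.2 = true then y.1.2 else y.1.1) (fun i : Fin s => y.2 (i, j.2)) : Fin (s + 1) → ℤ) j.1)
    · intro z hz
      rw [mem_KB] at hz
      rw [mem_product, mem_product, mem_Icc, mem_Icc, mem_KB]
      exact ⟨⟨hz _, hz _⟩, fun j => hz _⟩
    · rintro ⟨⟨a, b⟩, z⟩ h
      rw [mem_product, mem_product, mem_Icc, mem_Icc, mem_KB] at h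
      obtain ⟨⟨h1, h2⟩, h3⟩ := h
      rw [mem_KB]
      rintro ⟨i, c⟩
      simp only
      refine Fin.cases ?_ (fun j => ?_) i
      · rw [Fin.cons_zero]
        split_ifs
        · exact h2
        · exact h1
      · rw [Fin.cons_succ]
        exact h3 _
    · intro z _
      funext ⟨i, c⟩
      simp only
      refine Fin.cases ?_ (fun j => ?_) i
      · rw [Fin.cons_zero]
        cases c <;> simp
      · rw [Fin.cons_succ]
    · rintro ⟨⟨a, b⟩, z⟩ _
      simp
    · intro z _
      rw [prod_bool_succ]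
      apply prod_congr rfl
      intro ω _
      have e1 : ∀ c : Bool, vt (Fin.cons c ω) z =
          Fin.cons (z (0, c)) (vt ω (fun j : Fin s × Bool => z (j.1.succ, j.2))) := by
        intro c
        funext i
        refine Fin.cases ?_ (fun j => ?_) i
        · simp [vt]
        · simp [vt]
      rw [e1 false, e1 true]

/-- **The box norm controls the sums with weights that do not depend on one of the variables.** -/
theorem gcsB (I : Finset ℤ) (s : ℕ) : ∀ (F : (Fin (s + 1) → ℤ) → ℝ) (b : Fin (s + 1) → (Fin (s + 1) → ℤ) → ℝ),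
    (∀ i x, |b i x| ≤ 1) → (∀ i x y, (∀ j, j ≠ i → x j = y j) → b i x = b i y) →
    |∑ x ∈ PX I (s + 1), F x * ∏ i, b i x| ^ (2 ^ (s + 1)) * (I.card : ℝ) ^ (2 * (s + 1)) ≤
      (I.card : ℝ) ^ ((s + 1) * 2 ^ (s + 1)) * BN I (s + 1) F := by
  obtain ⟨m, hm⟩ : ∃ m : ℝ, m = I.card := ⟨_, rfl⟩
  have hm0 : 0 ≤ m := by rw [hm]; positivity
  rw [← hm]
  induction s with
  | zero =>
    intro F b hb1 hb2
    rw [sum_PX_succ]
    have h0 : ∀ f : (Fin 0 → ℤ) → ℝ, ∑ x ∈ PX I 0, f x = f Fin.elim0 := by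
      intro f
      have : PX I 0 = {Fin.elim0} := by
        ext x
        rw [mem_PX, mem_singleton]
        constructor
        · intro _
          funext i
          exact Fin.elim0 i
        · intro _ i
          exact Fin.elim0 i
      rw [this, sum_singleton]
    simp only [h0]
    have hc : ∀ a : ℤ, ∏ i, b i (Fin.cons a Fin.elim0) = b 0 (Fin.cons 0 Fin.elim0) := by
      intro a
      rw [Fin.prod_univ_succ]
      simp only [Nat.reduceAdd, Finset.univ_eq_empty, prod_empty, mul_one]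
      apply hb2
      intro j hj
      exfalso
      apply hj
      exact Subsingleton.elim (α := Fin 1) _ _
    simp only [hc]
    rw [← sum_mul, abs_mul]
    show _ ≤ m ^ ((0 + 1) * 2 ^ (0 + 1)) * ∑ a ∈ I, ∑ b ∈ I, (F (Fin.cons a Fin.elim0) * F (Fin.cons b Fin.elim0))
    rw [← sum_mul_sum]
    have h1 := hb1 0 (Fin.cons 0 Fin.elim0)
    have h2 : |b 0 (Fin.cons 0 Fin.elim0)| ^ 2 ≤ 1 := pow_le_one₀ (abs_nonneg _) h1
    norm_num
    rw [mul_comm (m ^ 2)]
    apply mul_le_mul_of_nonneg_right _ (by positivity)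
    rw [mul_pow, ← sq]
    rw [sq_abs, sq_abs]
    rw [sq_abs] at h2
    nlinarith [sq_nonneg (∑ i ∈ I, F (Fin.cons i Fin.elim0))]
  | succ s ih =>
    intro F b hb1 hb2
    obtain ⟨S, hS⟩ : ∃ S : ℤ → ℤ → ℝ, S = fun a a' => ∑ x ∈ PX I (s + 1),
      (F (Fin.cons a x) * F (Fin.cons a' x)) * ∏ i : Fin (s + 1), (b i.succ (Fin.cons a x) * b i.succ (Fin.cons a' x)) := ⟨_, rfl⟩
    have hih : ∀ a a', |S a a'| ^ (2 ^ (s + 1)) * m ^ (2 * (s + 1)) ≤
        m ^ ((s + 1) * 2 ^ (s + 1)) * BN I (s + 1) (fun x => F (Fin.cons a x) * F (Fin.cons a' x)) := by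
      intro a a'
      rw [hS]
      apply ih (fun x => F (Fin.cons a x) * F (Fin.cons a' x))
        (fun i x => b i.succ (Fin.cons a x) * b i.succ (Fin.cons a' x))
      · intro i x
        rw [abs_mul]
        exact mul_le_one₀ (hb1 _ _) (abs_nonneg _) (hb1 _ _)
      · intro i x y hxy
        have e : ∀ a : ℤ, b i.succ (Fin.cons a x) = b i.succ (Fin.cons a y) := by
          intro a
          apply hb2
          intro j
          refine Fin.cases ?_ (fun k => ?_) j
          · intro _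
            simp
          · intro hk
            simp only [Fin.cons_succ]
            apply hxy
            intro h
            apply hk
            rw [h]
        show b i.succ (Fin.cons a x) * b i.succ (Fin.cons a' x) = b i.succ (Fin.cons a y) * b i.succ (Fin.cons a' y)
        rw [e a, e a']
    -- the first Cauchy-Schwarz inequality
    obtain ⟨U, hU⟩ : ∃ U, U = ∑ x ∈ PX I (s + 1 + 1), F x * ∏ i, b i x := ⟨_, rfl⟩
    rw [← hU]
    have hUe : U = ∑ x ∈ PX I (s + 1), b 0 (Fin.cons 0 x) *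
        ∑ a ∈ I, F (Fin.cons a x) * ∏ i : Fin (s + 1), b i.succ (Fin.cons a x) := by
      rw [hU, sum_PX_succ, sum_comm]
      apply sum_congr rfl
      intro x _
      rw [mul_sum]
      apply sum_congr rfl
      intro a _
      rw [Fin.prod_univ_succ]
      have : b 0 (Fin.cons a x) = b 0 (Fin.cons 0 x) := by
        apply hb2
        intro j
        refine Fin.cases ?_ (fun k => ?_) j
        · intro h
          exact absurd rfl h
        · intro _
          simp
      rw [this]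
      ring
    have hsq : U ^ 2 ≤ m ^ (s + 1) * ∑ a ∈ I, ∑ a' ∈ I, S a a' := by
      rw [hUe]
      refine (sum_mul_sq_le_sq_mul_sq _ _ _).trans ?_
      have h1 : ∑ x ∈ PX I (s + 1), b 0 (Fin.cons 0 x) ^ 2 ≤ m ^ (s + 1) := by
        calc ∑ x ∈ PX I (s + 1), b 0 (Fin.cons 0 x) ^ 2 ≤ ∑ x ∈ PX I (s + 1), (1 : ℝ) := by
              apply sum_le_sum
              intro x _
              rw [← sq_abs]
              exact pow_le_one₀ (abs_nonneg _) (hb1 _ _)
          _ = m ^ (s + 1) := by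
              rw [sum_const, card_PX, nsmul_eq_mul, mul_one, hm]
              push_cast
              rfl
      have h2 : ∑ x ∈ PX I (s + 1), (∑ a ∈ I, F (Fin.cons a x) * ∏ i : Fin (s + 1), b i.succ (Fin.cons a x)) ^ 2 =
          ∑ a ∈ I, ∑ a' ∈ I, S a a' := by
        rw [hS]
        simp only
        have h3 : ∀ x ∈ PX I (s + 1), (∑ a ∈ I, F (Fin.cons a x) * ∏ i : Fin (s + 1), b i.succ (Fin.cons a x)) ^ 2 =
            ∑ a ∈ I, ∑ a' ∈ I, (F (Fin.cons a x) * F (Fin.cons a' x)) *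
              ∏ i : Fin (s + 1), (b i.succ (Fin.cons a x) * b i.succ (Fin.cons a' x)) := by
          intro x _
          rw [sq, sum_mul_sum]
          apply sum_congr rfl
          intro a _
          apply sum_congr rfl
          intro a' _
          rw [prod_mul_distrib]
          ring
        rw [sum_congr rfl h3, sum_comm]
        apply sum_congr rfl
        intro a _
        rw [sum_comm]
      rw [h2]
      apply mul_le_mul_of_nonneg_right h1
      rw [← h2]
      exact sum_nonneg fun _ _ => sq_nonneg _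
    have hsq2 : U ^ 2 ≤ m ^ (s + 1) * ∑ x ∈ I ×ˢ I, |S x.1 x.2| := by
      refine hsq.trans (mul_le_mul_of_nonneg_left ?_ (by positivity))
      rw [← sum_product']
      exact sum_le_sum fun x _ => le_abs_self _
    -- the power mean inequality
    have hpm : (∑ x ∈ I ×ˢ I, |S x.1 x.2|) ^ (2 ^ (s + 1)) * (m ^ 2) ≤
        (m ^ 2) ^ (2 ^ (s + 1)) * ∑ x ∈ I ×ˢ I, |S x.1 x.2| ^ (2 ^ (s + 1)) := by
      obtain ⟨n, hn⟩ : ∃ n, 2 ^ (s + 1) = n + 1 := ⟨2 ^ (s + 1) - 1, by
        have : 0 < 2 ^ (s + 1) := by positivity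
        omega⟩
      have h1 := pow_sum_div_card_le_sum_pow (s := I ×ˢ I) (f := fun x => |S x.1 x.2|)
        (fun _ _ => abs_nonneg _) n
      have hcard : ((I ×ˢ I).card : ℝ) = m ^ 2 := by
        rw [card_product, hm]
        push_cast
        ring
      rw [hcard] at h1
      rw [hn]
      rcases hm0.eq_or_lt with h0 | h0
      · rw [← h0]
        simp
      · rw [div_le_iff₀ (by positivity)] at h1
        calc (∑ x ∈ I ×ˢ I, |S x.1 x.2|) ^ (n + 1) * m ^ 2
            ≤ ((∑ x ∈ I ×ˢ I, |S x.1 x.2| ^ (n + 1)) * (m ^ 2) ^ n) * m ^ 2 :=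
              mul_le_mul_of_nonneg_right h1 (by positivity)
          _ = _ := by ring
    have hBN : BN I (s + 1 + 1) F = ∑ x ∈ I ×ˢ I, BN I (s + 1)
        (fun y => F (Fin.cons x.1 y) * F (Fin.cons x.2 y)) := by
      rw [sum_product]
      rfl
    rw [hBN]
    have h4 : |U| ^ (2 ^ (s + 1 + 1)) = (U ^ 2) ^ (2 ^ (s + 1)) := by
      rw [← sq_abs U, ← pow_mul]
      congr 1
      ring
    rw [h4]
    calc (U ^ 2) ^ (2 ^ (s + 1)) * m ^ (2 * (s + 1 + 1))
        ≤ (m ^ (s + 1) * ∑ x ∈ I ×ˢ I, |S x.1 x.2|) ^ (2 ^ (s + 1)) * m ^ (2 * (s + 1 + 1)) := by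
          apply mul_le_mul_of_nonneg_right _ (by positivity)
          exact pow_le_pow_left₀ (sq_nonneg _) hsq2 _
      _ = m ^ ((s + 1) * 2 ^ (s + 1)) * m ^ (2 * (s + 1)) *
            ((∑ x ∈ I ×ˢ I, |S x.1 x.2|) ^ (2 ^ (s + 1)) * (m ^ 2)) := by
          rw [mul_pow, ← pow_mul]
          ring
      _ ≤ m ^ ((s + 1) * 2 ^ (s + 1)) * m ^ (2 * (s + 1)) *
            ((m ^ 2) ^ (2 ^ (s + 1)) * ∑ x ∈ I ×ˢ I, |S x.1 x.2| ^ (2 ^ (s + 1))) :=
          mul_le_mul_of_nonneg_left hpm (by positivity)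
      _ = m ^ ((s + 1) * 2 ^ (s + 1)) * (m ^ 2) ^ (2 ^ (s + 1)) *
            ∑ x ∈ I ×ˢ I, (|S x.1 x.2| ^ (2 ^ (s + 1)) * m ^ (2 * (s + 1))) := by
          rw [← sum_mul]
          ring
      _ ≤ m ^ ((s + 1) * 2 ^ (s + 1)) * (m ^ 2) ^ (2 ^ (s + 1)) *
            ∑ x ∈ I ×ˢ I, (m ^ ((s + 1) * 2 ^ (s + 1)) * BN I (s + 1)
              (fun y => F (Fin.cons x.1 y) * F (Fin.cons x.2 y))) := by
          apply mul_le_mul_of_nonneg_left _ (by positivity)
          exact sum_le_sum fun x _ => hih _ _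
      _ = m ^ ((s + 1 + 1) * 2 ^ (s + 1 + 1)) * ∑ x ∈ I ×ˢ I, BN I (s + 1)
            (fun y => F (Fin.cons x.1 y) * F (Fin.cons x.2 y)) := by
          rw [← mul_sum, ← pow_mul, ← mul_assoc, ← pow_add, ← pow_add]
          congr 2
          ring

end Pool.Agent.H18.HG
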