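import Pool.Agent.H18.HG.Forms
import Pool.Graph.R_pool_sql_team_seeded_620a6dc7.H152.HR.Ramsey

/-!
# Linear forms at the vertices of monochromatic cliques (helper18)
-/

set_option autoImplicit false
set_option linter.unusedSectionVars false
set_option linter.deprecated false

namespace Pool.Agent.H18.HG

open Finset

/-- double counting -/
lemma double_count (S : Finset ℕ) (s R : ℕ) (hsR : s ≤ R) (hR : R ≤ S.card) (F : Finset (Finset ℕ))
    (hF : ∀ X ∈ F, X ⊆ S ∧ X.card = s) (hall : ∀ Q ⊆ S, Q.card = R → ∃ X ∈ F, X ⊆ Q) :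
    S.card.choose s ≤ F.card * R.choose s := by
  classical
  have h1 : S.card.choose R ≤ F.card * (S.card - s).choose (R - s) := by
    have h2 : (S.powersetCard R) ⊆ F.biUnion (fun X => (S.powersetCard R).filter (fun Q => X ⊆ Q)) := by
      intro Q hQ
      rw [mem_powersetCard] at hQ
      obtain ⟨X, hX, hXQ⟩ := hall Q hQ.1 hQ.2
      rw [mem_biUnion]
      exact ⟨X, hX, mem_filter.2 ⟨mem_powersetCard.2 hQ, hXQ⟩⟩
    calc S.card.choose R = (S.powersetCard R).card := (card_powersetCard _ _).symm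
      _ ≤ (F.biUnion (fun X => (S.powersetCard R).filter (fun Q => X ⊆ Q))).card := card_le_card h2
      _ ≤ ∑ X ∈ F, ((S.powersetCard R).filter (fun Q => X ⊆ Q)).card := card_biUnion_le
      _ ≤ ∑ _X ∈ F, (S.card - s).choose (R - s) := by
          apply sum_le_sum
          intro X hX
          obtain ⟨hX1, hX2⟩ := hF X hX
          have h3 : ((S.powersetCard R).filter (fun Q => X ⊆ Q)).card ≤ ((S \ X).powersetCard (R - s)).card := by
            apply card_le_card_of_injOn (fun Q => Q \ X)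
            · intro Q hQ
              rw [mem_coe, mem_filter, mem_powersetCard] at hQ
              rw [mem_coe, mem_powersetCard]
              refine ⟨sdiff_subset_sdiff hQ.1.1 le_rfl, ?_⟩
              rw [card_sdiff_of_subset hQ.2, hQ.1.2, hX2]
            · intro Q hQ Q' hQ' h
              rw [mem_coe, mem_filter] at hQ hQ'
              simp only at h
              rw [← sdiff_union_of_subset hQ.2, ← sdiff_union_of_subset hQ'.2, h]
          rw [card_powersetCard, card_sdiff_of_subset hX1, hX2] at h3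
          exact h3
      _ = F.card * (S.card - s).choose (R - s) := by rw [sum_const, smul_eq_mul]
  have h4 := Nat.choose_mul (n := S.card) (k := R) (s := s) hsR
  have h5 : 0 < (S.card - s).choose (R - s) := Nat.choose_pos (by omega)
  have h6 : S.card.choose s * (S.card - s).choose (R - s) ≤ (F.card * R.choose s) * (S.card - s).choose (R - s) := by
    rw [← h4]
    calc S.card.choose R * R.choose s ≤ (F.card * (S.card - s).choose (R - s)) * R.choose s :=
          Nat.mul_le_mul_right _ h1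
      _ = _ := by ring
  exact Nat.le_of_mul_le_mul_right h6 h5

variable {k : ℕ}

/-- the `l`-element subsets of the vertices have the colour `col` -/
def Mono {s q : ℕ} (χ : Finset ℕ → Fin q) (l : ℕ) (col : Fin q) (x : Fin s → ℤ) : Prop :=
  ∀ I : Finset (Fin s), I.card = l → χ (I.image (fun i => (x i).toNat)) = col

/-- the cylinder sets of the monochromatic cliques -/
def bc {q : ℕ} (χ : Finset ℕ → Fin q) (l W : ℕ) (col : Fin q) (i : Fin (k + 1)) (x : Fin (k + 1) → ℤ) : Prop :=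
  (∀ j j' : Fin (k + 1), j ≠ i → j' ≠ i → j < j' → x j < x j') ∧ (∀ j, j ≠ i → (W : ℤ) ∣ x j) ∧
    ∀ I : Finset (Fin (k + 1)), i ∉ I → I.card = l → χ (I.image (fun j => (x j).toNat)) = col

lemma bc_cyl {q : ℕ} (χ : Finset ℕ → Fin q) (l W : ℕ) (col : Fin q) : Cyl (bc (k := k) χ l W col) := by
  have key : ∀ (i : Fin (k + 1)) (x y : Fin (k + 1) → ℤ), (∀ j, j ≠ i → x j = y j) →
      bc χ l W col i x → bc χ l W col i y := by
    intro i x y h hx
    obtain ⟨h1, h2, h3⟩ := hx
    refine ⟨?_, ?_, ?_⟩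
    · intro j j' hj hj' hjj
      rw [← h j hj, ← h j' hj']
      exact h1 j j' hj hj' hjj
    · intro j hj
      rw [← h j hj]
      exact h2 j hj
    · intro I hI hl
      rw [← h3 I hI hl]
      congr 1
      apply image_congr
      intro j hj
      simp only
      rw [h j]
      rintro rfl
      exact hI hj
  intro i x y h
  exact ⟨key i x y h, key i y x (fun j hj => (h j hj).symm)⟩

lemma bc_all {q : ℕ} (hk : 2 ≤ k) (χ : Finset ℕ → Fin q) (l W : ℕ) (hl : l ≤ k) (col : Fin q)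
    (x : Fin (k + 1) → ℤ) : (∀ i, bc χ l W col i x) ↔ (StrictMono x ∧ (∀ j, (W : ℤ) ∣ x j) ∧ Mono χ l col x) := by
  have hcard : Fintype.card (Fin (k + 1)) = k + 1 := Fintype.card_fin _
  have hout : ∀ I : Finset (Fin (k + 1)), I.card ≤ k → ∃ i, i ∉ I := by
    intro I hI
    by_contra hcon
    push Not at hcon
    have : I = univ := eq_univ_iff_forall.2 hcon
    rw [this, card_univ, hcard] at hI
    omega
  constructor
  · intro h
    refine ⟨?_, ?_, ?_⟩
    · intro j j' hjj
      obtain ⟨i, hi⟩ := hout {j, j'} ((card_le_two).trans hk)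
      rw [mem_insert, mem_singleton, not_or] at hi
      exact (h i).1 j j' (Ne.symm hi.1) (Ne.symm hi.2) hjj
    · intro j
      obtain ⟨i, hi⟩ := hout {j} (by rw [card_singleton]; omega)
      rw [mem_singleton] at hi
      exact (h i).2.1 j (Ne.symm hi)
    · intro I hI
      obtain ⟨i, hi⟩ := hout I (by omega)
      exact (h i).2.2 I hi hI
  · rintro ⟨h1, h2, h3⟩ i
    exact ⟨fun j j' _ _ hjj => h1 hjj, fun j _ => h2 j, fun I _ hI => h3 I hI⟩

open Classical in
/-- many monochromatic cliques whose vertices are multiples of `W` -/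
lemma many_mono (k q l : ℕ) (hk : 2 ≤ k) (hq : 1 ≤ q) (hl : l ≤ k) : ∃ δ : ℝ, 0 < δ ∧ ∀ W : ℕ, 1 ≤ W → ∃ M₀ : ℕ,
    ∀ M : ℕ, M₀ ≤ M → ∀ χ : Finset ℕ → Fin q, ∃ col : Fin q, δ * ((M : ℝ) / W) ^ (k + 1) ≤
      ((CY M (bc (k := k) χ l W col)).card : ℝ) := by
  obtain ⟨R, hR⟩ := H152HR.ramsey (Fin q) l (k + 1)
  obtain ⟨R', hR'⟩ : ∃ R', R' = max R (k + 1) := ⟨_, rfl⟩
  have hRR : R ≤ R' := by rw [hR']; exact le_max_left _ _
  have hkR : k + 1 ≤ R' := by rw [hR']; exact le_max_right _ _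
  have hch : 0 < R'.choose (k + 1) := Nat.choose_pos hkR
  obtain ⟨δ, hδ⟩ : ∃ δ : ℝ, δ = 1 / (4 ^ (k + 1) * (k + 1).factorial * R'.choose (k + 1) * q) := ⟨_, rfl⟩
  have hδ0 : 0 < δ := by
    rw [hδ]
    positivity
  refine ⟨δ, hδ0, ?_⟩
  intro W hW
  refine ⟨2 * W * (R' + 1), ?_⟩
  intro M hM χ
  have hWr : (0 : ℝ) < W := by exact_mod_cast hW
  obtain ⟨S, hS⟩ : ∃ S, S = M / W := ⟨_, rfl⟩
  have hSW : S * W ≤ M := by rw [hS]; exact Nat.div_mul_le_self M W
  have hSR : 2 * (R' + 1) ≤ S := by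
    rw [hS, Nat.le_div_iff_mul_le hW]
    calc 2 * (R' + 1) * W = 2 * W * (R' + 1) := by ring
      _ ≤ M := hM
  have hSW2 : M ≤ 2 * (S * W) := by
    have h1 := Nat.div_add_mod M W
    have h7 := Nat.mod_lt M hW
    rw [← hS] at h1
    nlinarith
  -- the base set
  obtain ⟨Bs, hBs⟩ : ∃ Bs : Finset ℕ, Bs = (Icc 1 S).image (fun i => W * i) := ⟨_, rfl⟩
  have hBc : Bs.card = S := by
    rw [hBs, card_image_of_injective, Nat.card_Icc]
    · omega
    · intro a b h
      exact Nat.eq_of_mul_eq_mul_left hW h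
  have hBm : ∀ n ∈ Bs, W ∣ n ∧ 1 ≤ n ∧ n ≤ M := by
    intro n hn
    rw [hBs, mem_image] at hn
    obtain ⟨i, hi, rfl⟩ := hn
    rw [mem_Icc] at hi
    refine ⟨Dvd.intro _ rfl, by nlinarith, ?_⟩
    calc W * i ≤ W * S := Nat.mul_le_mul_left _ hi.2
      _ = S * W := by ring
      _ ≤ M := hSW
  obtain ⟨F, hF⟩ : ∃ F : Finset (Finset ℕ), F = (Bs.powersetCard (k + 1)).filter
    (fun X => ∃ col, ∀ J ⊆ X, J.card = l → χ J = col) := ⟨_, rfl⟩
  have hcount := double_count Bs (k + 1) R' hkR (by rw [hBc]; omega) F (by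
    intro X hX
    rw [hF, mem_filter, mem_powersetCard] at hX
    exact hX.1) (by
    intro Q hQ hQc
    obtain ⟨X, hX, hXc, hcol⟩ := hR χ Q (by omega)
    refine ⟨X, ?_, hX⟩
    rw [hF, mem_filter, mem_powersetCard]
    exact ⟨⟨hX.trans hQ, hXc⟩, hcol⟩)
  rw [hBc] at hcount
  -- the colour classes
  have hcov : F.card ≤ ∑ col : Fin q, (CY M (bc (k := k) χ l W col)).card := by
    have h1 : F.card ≤ (univ.biUnion (fun col : Fin q => CY M (bc (k := k) χ l W col))).card := by
      have hmem : ∀ X ∈ F, X.card = k + 1 := by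
        intro X hX
        rw [hF, mem_filter, mem_powersetCard] at hX
        exact hX.1.2
      apply card_le_card_of_injOn (fun X => if h : X.card = k + 1 then
        (fun i : Fin (k + 1) => ((X.orderEmbOfFin h i : ℕ) : ℤ)) else 0)
      · intro X hX
        rw [mem_coe] at hX
        have hc := hmem X hX
        simp only
        rw [dif_pos hc, mem_coe, mem_biUnion]
        rw [hF, mem_filter, mem_powersetCard] at hX
        obtain ⟨⟨hX1, _⟩, col, hcol⟩ := hX
        refine ⟨col, mem_univ _, ?_⟩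
        rw [mem_CY, bc_all hk χ l W hl]
        have hXm : ∀ i, X.orderEmbOfFin hc i ∈ X := fun i => orderEmbOfFin_mem X hc i
        refine ⟨fun i => ?_, ?_, ?_, ?_⟩
        · have := hBm _ (hX1 (hXm i))
          exact ⟨by exact_mod_cast this.2.1, by exact_mod_cast this.2.2⟩
        · intro i j hij
          have := (X.orderEmbOfFin hc).strictMono hij
          show ((X.orderEmbOfFin hc i : ℕ) : ℤ) < (X.orderEmbOfFin hc j : ℕ)
          exact_mod_cast this
        · intro i
          have := (hBm _ (hX1 (hXm i))).1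
          exact_mod_cast this
        · intro I hI
          apply hcol
          · intro n hn
            rw [mem_image] at hn
            obtain ⟨i, _, rfl⟩ := hn
            simp only [Int.toNat_natCast]
            exact hXm i
          · rw [card_image_of_injective _, hI]
            intro i j hij
            simp only [Int.toNat_natCast] at hij
            exact (X.orderEmbOfFin hc).injective hij
      · intro X hX Y hY h
        rw [mem_coe] at hX hY
        have hcX := hmem X hX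
        have hcY := hmem Y hY
        simp only at h
        rw [dif_pos hcX, dif_pos hcY] at h
        have h2 : ∀ i, X.orderEmbOfFin hcX i = Y.orderEmbOfFin hcY i := by
          intro i
          have := congrFun h i
          exact_mod_cast this
        have h3 : (univ : Finset (Fin (k + 1))).image (X.orderEmbOfFin hcX) = X := image_orderEmbOfFin_univ X hcX
        have h4 : (univ : Finset (Fin (k + 1))).image (Y.orderEmbOfFin hcY) = Y := image_orderEmbOfFin_univ Y hcY
        rw [← h3, ← h4]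
        apply image_congr
        intro i _
        exact h2 i
    exact h1.trans card_biUnion_le
  -- the best colour
  by_contra hcon
  push Not at hcon
  have h1 : (∑ col : Fin q, ((CY M (bc (k := k) χ l W col)).card : ℝ)) < q * (δ * ((M : ℝ) / W) ^ (k + 1)) := by
    have hne : (univ : Finset (Fin q)).Nonempty := ⟨⟨0, by omega⟩, mem_univ _⟩
    have := sum_lt_sum_of_nonempty hne (fun col _ => hcon col)
    rwa [sum_const, card_univ, Fintype.card_fin, nsmul_eq_mul] at this
  have h2 : (S.choose (k + 1) : ℝ) ≤ (∑ col : Fin q, ((CY M (bc (k := k) χ l W col)).card : ℝ)) * R'.choose (k + 1) := by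
    have h3 : S.choose (k + 1) ≤ (∑ col : Fin q, (CY M (bc (k := k) χ l W col)).card) * R'.choose (k + 1) :=
      hcount.trans (Nat.mul_le_mul_right _ hcov)
    exact_mod_cast h3
  have h3 := Nat.pow_le_choose (α := ℝ) (k + 1) S
  have h4 : ((M : ℝ) / W / 4) ^ (k + 1) ≤ ((S + 1 - (k + 1) : ℕ) : ℝ) ^ (k + 1) := by
    apply pow_le_pow_left₀ (by positivity)
    have h5 : S ≤ 2 * (S + 1 - (k + 1)) := by omega
    have h6 : (S : ℝ) ≤ 2 * ((S + 1 - (k + 1) : ℕ) : ℝ) := by exact_mod_cast h5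
    have h7 : (M : ℝ) / W ≤ 2 * S := by
      rw [div_le_iff₀ hWr]
      have : (M : ℝ) ≤ 2 * (S * W) := by exact_mod_cast hSW2
      linarith
    linarith
  have h5 : (0 : ℝ) < (k + 1).factorial := by positivity
  have hchr : (0 : ℝ) < R'.choose (k + 1) := by exact_mod_cast hch
  have hqr : (0 : ℝ) < q := by exact_mod_cast hq
  have h6 : ((M : ℝ) / W / 4) ^ (k + 1) / (k + 1).factorial <
      q * (δ * ((M : ℝ) / W) ^ (k + 1)) * R'.choose (k + 1) := by
    calc ((M : ℝ) / W / 4) ^ (k + 1) / (k + 1).factorial ≤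
          ((S + 1 - (k + 1) : ℕ) : ℝ) ^ (k + 1) / (k + 1).factorial := div_le_div_of_nonneg_right h4 h5.le
      _ ≤ S.choose (k + 1) := h3
      _ ≤ _ := h2
      _ < _ := mul_lt_mul_of_pos_right h1 hchr
  have h7 : q * (δ * ((M : ℝ) / W) ^ (k + 1)) * R'.choose (k + 1) = ((M : ℝ) / W / 4) ^ (k + 1) / (k + 1).factorial := by
    rw [hδ, div_pow ((M : ℝ) / W) 4]
    field_simp
  rw [h7] at h6
  exact lt_irrefl _ h6

open Classical in
/-- **Linear forms at the vertices of monochromatic cliques.** -/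
theorem forms_ramsey (k t e : ℕ) (hk : 2 ≤ k) : ∃ κ : ℝ, 0 < κ ∧ ∀ A q l : ℕ, 1 ≤ q → l ≤ k → ∃ (H : ℕ) (C : ℝ), 0 < C ∧
    ∃ M₀ : ℕ, ∀ M : ℕ, M₀ ≤ M → ∀ τ : Fin t → ℕ → ℤ → Prop, (∀ j, Sieve1 e (τ j)) →
    ∃ h : Fin t → ℕ, (∀ j, h j ≤ H) ∧
    ∀ c : Fin t → Fin (k + 1) → ℤ, (∀ j i, c j i ≠ 0 ∧ |c j i| ≤ A) →
    ∀ χ : Finset ℕ → Fin q, C * (M : ℝ) ^ (k + 1) / Real.log M ^ (t * e) ≤
      (((Fintype.piFinset (fun _ : Fin (k + 1) => Icc (1 : ℤ) M)).filter (fun x => StrictMono x ∧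
        (∃ col, Mono χ l col x) ∧ ∀ j, ∀ p : ℕ, p.Prime → (p : ℝ) ≤ (M : ℝ) ^ κ →
        ¬ τ j p (lin (c j) x + h j))).card : ℝ) := by
  obtain ⟨κ, c0, hκ, hc0, hmain⟩ := class_count k (t * e)
  refine ⟨κ, hκ, ?_⟩
  intro A q l hq hl
  obtain ⟨δ, hδ, hmono⟩ := many_mono k q l hk hq hl
  obtain ⟨w₀, hw₀⟩ := hmain (δ / 2) (by positivity)
  obtain ⟨w, hw⟩ : ∃ w, w = max w₀ A := ⟨_, rfl⟩
  obtain ⟨M₀, hM₀⟩ := hw₀ w (by rw [hw]; exact le_max_left _ _)
  obtain ⟨W, hW⟩ : ∃ W, W = primorial w := ⟨_, rfl⟩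
  have hW0 : 0 < W := by rw [hW]; exact primorial_pos w
  have hWr : (0 : ℝ) < W := by exact_mod_cast hW0
  rw [← hW] at hM₀
  obtain ⟨M₁, hM₁⟩ := hmono W hW0
  refine ⟨W, c0 * (δ / 2) / (W : ℝ) ^ (k + 1), by positivity, max (max M₀ M₁) 3, ?_⟩
  intro M hM τ hτ
  have hM3 : 3 ≤ M := (le_max_right _ _).trans hM
  have hL0 : 0 < Real.log M := Real.log_pos (by exact_mod_cast (by omega : 1 < M))
  choose h hh1 hh2 using fun j => shift_exists (hτ j) w 0
  refine ⟨h, fun j => by rw [hW]; exact (hh1 j).le, ?_⟩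
  intro c hc χ
  obtain ⟨col, hcol⟩ := hM₁ M ((le_max_right _ _).trans ((le_max_left _ _).trans hM)) χ
  have hcl := hM₀ M ((le_max_left _ _).trans ((le_max_left _ _).trans hM)) (TF τ c (fun j => (h j : ℤ)))
    (TF_per hτ c _) (TF_fib hτ c _ A w hc (by rw [hw]; exact le_max_right _ _)) (fun _ => (W : ℤ))
    (fun _ => ⟨by exact_mod_cast hW0, le_rfl⟩) (by
      rintro p hp hpw ⟨j, hj⟩
      apply hh2 j p hp hpw
      refine ((hτ j).per p _ _ ?_).1 hj
      have e1 : lin (c j) (fun _ => (W : ℤ)) + h j - (0 + h j) = lin (c j) (fun _ => (W : ℤ)) := by ring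
      rw [e1]
      unfold lin
      apply dvd_sum
      intro i _
      apply Dvd.dvd.mul_left
      rw [Int.natCast_dvd_natCast, hW]
      exact (Nat.Prime.dvd_primorial_iff hp).2 hpw) (bc χ l W col) (bc_cyl χ l W col)
  have hX : (CY M (bc (k := k) χ l W col)).filter (fun x => ∀ i, (W : ℤ) ∣ x i - W) = CY M (bc χ l W col) := by
    apply filter_true_of_mem
    intro x hx i
    rw [mem_CY, bc_all hk χ l W hl] at hx
    exact dvd_sub_self_right.2 (hx.2.2.1 i)
  rw [hX] at hcl
  have h1 : c0 * (δ / 2) / (W : ℝ) ^ (k + 1) * (M : ℝ) ^ (k + 1) / Real.log M ^ (t * e) ≤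
      c0 / Real.log M ^ (t * e) * (((CY M (bc (k := k) χ l W col)).card : ℝ) - δ / 2 * ((M : ℝ) / W) ^ (k + 1)) := by
    calc c0 * (δ / 2) / (W : ℝ) ^ (k + 1) * (M : ℝ) ^ (k + 1) / Real.log M ^ (t * e) =
        c0 / Real.log M ^ (t * e) * (δ / 2 * ((M : ℝ) / W) ^ (k + 1)) := by
          rw [div_pow]
          ring
      _ ≤ _ := by
          apply mul_le_mul_of_nonneg_left _ (by positivity)
          linarith
  refine h1.trans (hcl.trans (Nat.cast_le.2 (card_le_card ?_)))
  intro x hx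
  rw [mem_filter, mem_CY, bc_all hk χ l W hl] at hx
  obtain ⟨⟨hx1, hx2, _, hx3⟩, _, hx4⟩ := hx
  rw [mem_filter, Fintype.mem_piFinset]
  refine ⟨fun i => mem_Icc.2 (hx1 i), hx2, ⟨col, hx3⟩, ?_⟩
  intro j p hp hpM hj
  exact hx4 p hp hpM ⟨j, hj⟩

end Pool.Agent.H18.HG
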